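import Pool.Agent.GSV.Quat
import Pool.Agent.GSK.Quat

/-!
# GSV: a chain of quaternion algebras

`exch`: `(a, u ^ 2 - a b)` and `(b, u ^ 2 - a b)` are isomorphic.
`chain`: `(d, e) ~ (d, z) ~ (q, z) ~ (q, c)` if `e z` is a norm from `F(√d)`, `z = u ^ 2 - d q` and
`c z` is a norm from `F(√q)`.
-/

set_option autoImplicit false

noncomputable section

namespace Pool.Agent.GSV.Quat

open scoped Quaternion

variable {F : Type*} [Field F]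

/-- `(b, u ^ 2 - a b)` and `(a, u ^ 2 - a b)` are isomorphic -/
theorem exch (h2 : (2 : F) ≠ 0) {a b u z : F} (ha : a ≠ 0) (hb : b ≠ 0) (hz : z ≠ 0)
    (h : z = u ^ 2 - a * b) : Nonempty (ℍ[F, b, z] ≃ₐ[F] ℍ[F, a, z]) := by
  refine of_pure h2 hb hz (u / a) 0 a⁻¹ 0 1 0 ?_ ?_ ?_
  · field_simp
    rw [h]
    ring
  · ring
  · ring

/-- if `b b'` is a norm from `F(√a)` then `(a, b')` and `(a, b)` are isomorphic -/
theorem norm' {a b b' x y : F} (hb : b ≠ 0) (hb' : b' ≠ 0)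
    (h : b * b' = x ^ 2 - a * y ^ 2) : Nonempty (ℍ[F, a, b'] ≃ₐ[F] ℍ[F, a, b]) := by
  refine Pool.Agent.GSK.Quat.norm (x := x / b) (y := y / b) hb' ?_
  field_simp
  linear_combination h

theorem trans' {a b a' b' a'' b'' : F} (h : Nonempty (ℍ[F, a, b] ≃ₐ[F] ℍ[F, a', b']))
    (h' : Nonempty (ℍ[F, a', b'] ≃ₐ[F] ℍ[F, a'', b''])) :
    Nonempty (ℍ[F, a, b] ≃ₐ[F] ℍ[F, a'', b'']) :=
  ⟨h.some.trans h'.some⟩

theorem symm' {a b a' b' : F} (h : Nonempty (ℍ[F, a, b] ≃ₐ[F] ℍ[F, a', b'])) :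
    Nonempty (ℍ[F, a', b'] ≃ₐ[F] ℍ[F, a, b]) :=
  ⟨h.some.symm⟩

/-- **The chain.** -/
theorem chain (h2 : (2 : F) ≠ 0) {d e z q c u x y r w : F} (hd : d ≠ 0) (he : e ≠ 0) (hz : z ≠ 0)
    (hq : q ≠ 0) (hc : c ≠ 0) (h3 : e * z = x ^ 2 - d * y ^ 2) (hL : z = u ^ 2 - d * q)
    (h4 : c * z = r ^ 2 - q * w ^ 2) : Nonempty (ℍ[F, d, e] ≃ₐ[F] ℍ[F, q, c]) := by
  have e1 : Nonempty (ℍ[F, d, z] ≃ₐ[F] ℍ[F, d, e]) := norm' he hz h3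
  have e2 : Nonempty (ℍ[F, q, z] ≃ₐ[F] ℍ[F, d, z]) := exch h2 hd hq hz hL
  have e3 : Nonempty (ℍ[F, q, z] ≃ₐ[F] ℍ[F, q, c]) := norm' hc hz h4
  exact trans' (symm' e1) (trans' (symm' e2) e3)

end Pool.Agent.GSV.Quat
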