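import Pool.Agent.GSK.DFin

/-!
# GSV: points of the two K3 surfaces from identities

`K` a field, `M` an extension of degree 3. `top_of`: a set which contains an element of `M` outside
`K` generates `M`. `not_mem_of`: `d x = a + b z + c z ^ 2`, `b ≠ 0` or `c ≠ 0`, `z` not
in `K`, then `x` is not in `K`. `cubGen`, `datGen`: `Cub.Gen` and `Dat.Gen` from the equations.
-/

set_option autoImplicit false

noncomputable section

namespace Pool.Agent.GSV

open Pool.Agent.TK MvPolynomial

/-! ### Extensions of degree 3 -/

section Top

variable {K M : Type*} [Field K] [Field M] [Algebra K M]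

/-- A set which contains an element outside `K` generates the extension. -/
theorem top_of (hM : Module.finrank K M = 3) {S : Set M} {x : M} (hx : x ∈ S)
    (hx' : x ∉ Set.range (algebraMap K M)) : IntermediateField.adjoin K S = ⊤ := by
  set L := IntermediateField.adjoin K S with hL
  have h1 : Module.finrank K L * Module.finrank L M = 3 := by
    rw [Module.finrank_mul_finrank, hM]
  have h2 : Module.finrank K L ∣ 3 := ⟨_, h1.symm⟩
  rcases (Nat.dvd_prime Nat.prime_three).1 h2 with h3 | h3
  · exfalso
    have h4 := IntermediateField.finrank_eq_one_iff.1 h3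
    apply hx'
    have h5 : x ∈ L := IntermediateField.subset_adjoin K S hx
    rw [h4, IntermediateField.mem_bot] at h5
    exact h5
  · rw [h3] at h1
    have h4 : Module.finrank L M = 1 := by omega
    exact IntermediateField.finrank_eq_one_iff_eq_top.1 h4

/-- `1, z, z ^ 2` are linearly independent. -/
theorem lin_of (hM : Module.finrank K M = 3) {z : M} (hz : z ∉ Set.range (algebraMap K M))
    {a b c : K} (h : algebraMap K M a + algebraMap K M b * z + algebraMap K M c * z ^ 2 = 0) :
    a = 0 ∧ b = 0 ∧ c = 0 := by
  have hfin : FiniteDimensional K M := Module.finite_of_finrank_pos (by omega)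
  have hint : IsIntegral K z := Algebra.IsIntegral.isIntegral z
  have htop : IntermediateField.adjoin K {z} = ⊤ := top_of hM rfl hz
  have hdeg : (minpoly K z).natDegree = 3 := by
    rw [← IntermediateField.adjoin.finrank hint, htop, IntermediateField.finrank_top', hM]
  set p : Polynomial K := Polynomial.C a + Polynomial.C b * Polynomial.X +
    Polynomial.C c * Polynomial.X ^ 2 with hp
  have h0 : Polynomial.aeval z p = 0 := by
    rw [hp]
    simpa using h
  have hp0 : p = 0 := by
    by_contra hne
    have h1 := Polynomial.natDegree_le_natDegree (minpoly.degree_le_of_ne_zero K z hne h0)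
    have h2 : p.natDegree ≤ 2 := by
      rw [hp]
      compute_degree
    omega
  refine ⟨?_, ?_, ?_⟩
  · have := congrArg (fun q => Polynomial.coeff q 0) hp0
    simpa [hp] using this
  · have := congrArg (fun q => Polynomial.coeff q 1) hp0
    simpa [hp, Polynomial.coeff_X, Polynomial.coeff_X_pow, Polynomial.coeff_C] using this
  · have := congrArg (fun q => Polynomial.coeff q 2) hp0
    simpa [hp, Polynomial.coeff_X, Polynomial.coeff_X_pow, Polynomial.coeff_C] using this

/-- An element outside `K` by its components. -/
theorem not_mem_of (hM : Module.finrank K M = 3) {z : M} (hz : z ∉ Set.range (algebraMap K M))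
    {x : M} {d a b c : K} (hbc : b ≠ 0 ∨ c ≠ 0)
    (h : algebraMap K M d * x = algebraMap K M a + algebraMap K M b * z +
      algebraMap K M c * z ^ 2) : x ∉ Set.range (algebraMap K M) := by
  rintro ⟨y, rfl⟩
  have h1 : algebraMap K M (a - d * y) + algebraMap K M b * z + algebraMap K M c * z ^ 2 = 0 := by
    rw [map_sub, map_mul]
    linear_combination -h
  obtain ⟨-, hb, hc⟩ := lin_of hM hz h1
  rcases hbc with h2 | h2
  · exact h2 hb
  · exact h2 hc

/-- An element given by its components is not zero. -/
theorem ne_zero_of (hM : Module.finrank K M = 3) {z : M} (hz : z ∉ Set.range (algebraMap K M))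
    {x : M} {a b c : K} (habc : a ≠ 0 ∨ b ≠ 0 ∨ c ≠ 0)
    (h : x = algebraMap K M a + algebraMap K M b * z + algebraMap K M c * z ^ 2) : x ≠ 0 := by
  intro h0
  rw [h0] at h
  obtain ⟨ha, hb, hc⟩ := lin_of hM hz h.symm
  rcases habc with h2 | h2 | h2
  · exact h2 ha
  · exact h2 hb
  · exact h2 hc

/-- A root of a cubic polynomial without roots in `K`. -/
theorem root_not_mem {z : M} {f : Polynomial K} (hf : ∀ y, ¬ f.IsRoot y)
    (hz : Polynomial.aeval z f = 0) : z ∉ Set.range (algebraMap K M) := by
  rintro ⟨y, rfl⟩
  refine hf y ?_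
  rw [Polynomial.aeval_algebraMap_apply, map_eq_zero] at hz
  exact hz

end Top

variable {M : Type} [Field M] [Algebra K M]

/-- **The point of the K3 surface of the cubic fourfold.** -/
theorem cubGen {X : Cub ℂ} {n n' : Fin 3 → M} (hM : Module.finrank K M = 3)
    (hs : (X.map (cc M)).Surf n n') (p0 : n 0 + n' 0 = algebraMap K M (var 1))
    (p1 : n 1 + n' 1 = -algebraMap K M (var 0)) (p2 : n 2 + n' 2 = 1) (i : Fin 3)
    (hi : n i ∉ Set.range (algebraMap K M)) : X.Gen n n' :=
  ⟨hs, p0, p1, p2, top_of hM (Set.mem_range_self i) hi⟩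

/-- **The point of the K3 surface of the datum.** -/
theorem datGen {D : Dat ℂ} {c : Fin 2 → K} {m : M} (hM : Module.finrank K M = 3)
    (hd : (D.map (cc M)).Degen (fun i => algebraMap K M (c i)) m)
    (hm : m ∉ Set.range (algebraMap K M)) : D.Gen c m :=
  ⟨hd, top_of hM rfl hm⟩

end Pool.Agent.GSV
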