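import Pool.Agent.GSV.Tests
import Pool.Agent.GSV.Chain
import Pool.Agent.GSV.XD

/-!
# GSV: the chain of quaternion algebras from tests

`chain_den`: the chain of `GSV/Chain.lean` with denominators. `quat_test`: the same for the values of
fractions.
-/

set_option autoImplicit false

noncomputable section

namespace Pool.Agent.GSV

open X3
open scoped Quaternion

/-- the chain with the denominators `p` and `e` -/
theorem Quat.chain_den {F : Type} [Field F] (h2 : (2 : F) ≠ 0) {b a q c p e U V Y R S : F}
    (hb : b ≠ 0) (ha : a ≠ 0) (hq : q ≠ 0) (hc : c ≠ 0) (hp : p ≠ 0) (he : e ≠ 0)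
    (hz : U * U - b * q * (p * p) ≠ 0)
    (h3 : a * (U * U - b * q * (p * p)) = V * V - b * (Y * Y) * (p * p))
    (h4 : c * ((U * U - b * q * (p * p)) * (e * e)) = R * R - q * (S * S)) :
    Nonempty (ℍ[F, b, a] ≃ₐ[F] ℍ[F, q, c]) := by
  have hz' : (U / p) ^ 2 - b * q ≠ 0 := by
    intro h
    apply hz
    have : (U / p) ^ 2 - b * q = (U * U - b * q * (p * p)) / (p * p) := by
      field_simp
    rw [this, div_eq_zero_iff] at h
    rcases h with h | h
    · exact h
    · exact absurd h (mul_ne_zero hp hp)
  refine Quat.chain h2 (z := (U / p) ^ 2 - b * q) (u := U / p) (x := V / p) (y := Y)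
    (r := R / (p * e)) (w := S / (p * e)) hb ha hz' hq hc ?_ rfl ?_
  · field_simp
    linear_combination h3
  · field_simp
    linear_combination h4

/-- **The isomorphism of quaternion algebras from the tests.** -/
theorem quat_test {M : Type} [Field M] [Algebra TK.K M] {z : M} {d : X3}
    {F : List (List (List ℤ))} (hM : Module.finrank TK.K M = 3)
    (hr : z ∉ Set.range (algebraMap TK.K M))
    (hz : Fr.Root F (algebraMap TK.K M (TK.var 0)) (algebraMap TK.K M (TK.var 1)) z)
    {b a q c p e U V Y R S : Fr d} {i j : ℤ} {B N : ℕ} (hd : nz i j F d = true)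
    (hb : nz i j F b.n = true) (ha : nz i j F a.n = true) (hq : nz i j F q.n = true)
    (hc : nz i j F c.n = true) (hp : nz i j F p.n = true) (he : nz i j F e.n = true)
    (hn : nz i j F (U * U - b * q * (p * p)).n = true)
    (h3 : chk B N F (a * (U * U - b * q * (p * p)) - (V * V - b * (Y * Y) * (p * p))).n = true)
    (h4 : chk B N F (c * ((U * U - b * q * (p * p)) * (e * e)) -
      (R * R - q * (S * S))).n = true) :
    Nonempty (ℍ[M, val M z b, val M z a] ≃ₐ[M] ℍ[M, val M z q, val M z c]) := by
  have hi : ∀ a b c : TK.K, algebraMap TK.K M a + algebraMap TK.K M b * z +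
      algebraMap TK.K M c * z ^ 2 = 0 → a = 0 ∧ b = 0 ∧ c = 0 := fun _ _ _ h => lin_of hM hr h
  have hd' := ne_of hz hi hd
  have key : ∀ f : Fr d, nz i j F f.n = true → val M z f ≠ 0 := fun f hf =>
    div_ne_zero (ne_of hz hi hf) (pow_ne_zero _ hd')
  have hm := Fr.hm hd'
  have mul' : ∀ f g : Fr d, val M z (f * g) = val M z f * val M z g := hm.mul
  have sub' : ∀ f g : Fr d, val M z (f - g) = val M z f - val M z g := hm.sub
  have g3 := eq_of hz hd' h3
  have g4 := eq_of hz hd' h4
  have gn := key _ hn
  simp only [mul', sub'] at g3 g4 gn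
  have hM2 : CharZero M := charZero_of_injective_algebraMap (algebraMap TK.K M).injective
  exact Quat.chain_den two_ne_zero (key b hb) (key a ha) (key q hq) (key c hc) (key p hp)
    (key e he) gn g3 g4

end Pool.Agent.GSV
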