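import Pool.Agent.GSK.KFin

/-!
# GSV: the quaternion algebra of the K3 surface of a cubic fourfold has a slot in the base field

`(-det n, n_00 n'_00) = (-det n, t - s ^ 2) = (-det n, D2)`, where `(t - s ^ 2) D2 = c_01 ^ 2 -
c_00 c_11` is minus the determinant of the matrix `C_0`.
-/

set_option autoImplicit false

noncomputable section

namespace Pool.Agent.GSK

open Pool.Agent.GSX
open scoped Quaternion

variable {K : Type} [Field K] {M : Type} [Field M] [Algebra K M] {D : Cub K} {s t : K}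
  {n n' : Fin 3 → M}

/-- `(-det n, n_00 n'_00) = (-det n, t - s ^ 2)` -/
theorem K3.chain1 (h : K3 D s t n n') (hd : t - s ^ 2 ≠ 0) (h0 : n 0 ≠ 0) (h0' : n' 0 ≠ 0) :
    Nonempty (ℍ[M, -dt n, n 0 * n' 0] ≃ₐ[M] ℍ[M, -dt n, algebraMap K M (t - s ^ 2)]) := by
  have hd' : algebraMap K M (t - s ^ 2) ≠ 0 := by
    rw [Ne, map_eq_zero]
    exact hd
  have e2 : algebraMap K M (t - s ^ 2) * (n 0 * n' 0) = (algebraMap K M s * n 0 +
      algebraMap K M t * n 1) ^ 2 + dt n * algebraMap K M t ^ 2 := by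
    have hs : algebraMap K M s = -(n 1 + n' 1) := by rw [h.c1, neg_neg]
    have hq := h.quad
    unfold dt at hq ⊢
    rw [h.dd, ← h.c0, hs]
    linear_combination -(n 0 * (n 0 + n' 0)) * hq
  have e3 : n 0 * n' 0 = algebraMap K M (t - s ^ 2) *
      (((algebraMap K M s * n 0 + algebraMap K M t * n 1) / algebraMap K M (t - s ^ 2)) ^ 2 -
      (-dt n) * (algebraMap K M t / algebraMap K M (t - s ^ 2)) ^ 2) := by
    field_simp
    linear_combination e2
  exact Quat.norm (mul_ne_zero h0 h0') e3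

/-- `(-det n, t - s ^ 2) = (-det n, D2)` -/
theorem K3.chain2 (h : K3 D s t n n') (hd : t - s ^ 2 ≠ 0) (h0' : n' 0 ≠ 0) {D2 : K}
    (hD : (t - s ^ 2) * D2 = D.c s t 0 1 ^ 2 - D.c s t 0 0 * D.c s t 0 2) (hD0 : D2 ≠ 0) :
    Nonempty (ℍ[M, -dt n, algebraMap K M D2] ≃ₐ[M] ℍ[M, -dt n, algebraMap K M (t - s ^ 2)]) := by
  have hd' : algebraMap K M (t - s ^ 2) ≠ 0 := by
    rw [Ne, map_eq_zero]
    exact hd
  have hD' : algebraMap K M (t - s ^ 2) * algebraMap K M D2 = algebraMap K M (D.c s t 0 1) ^ 2 -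
      algebraMap K M (D.c s t 0 0) * algebraMap K M (D.c s t 0 2) := by
    rw [← map_mul, hD, map_sub, map_mul, map_pow]
  have hl := h.lin0
  have e2 : n' 0 ^ 2 * (algebraMap K M (t - s ^ 2) * algebraMap K M D2) =
      (algebraMap K M (D.c s t 0 1) * n' 0 - algebraMap K M (D.c s t 0 0) * n' 1) ^ 2 +
        dt n * algebraMap K M (D.c s t 0 0) ^ 2 := by
    rw [hD', h.quad, dt]
    linear_combination -(algebraMap K M (D.c s t 0 0) * n' 0) * hl
  have e3 : algebraMap K M D2 = algebraMap K M (t - s ^ 2) *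
      (((algebraMap K M (D.c s t 0 1) * n' 0 - algebraMap K M (D.c s t 0 0) * n' 1) /
        (n' 0 * algebraMap K M (t - s ^ 2))) ^ 2 -
      (-dt n) * (algebraMap K M (D.c s t 0 0) / (n' 0 * algebraMap K M (t - s ^ 2))) ^ 2) := by
    field_simp
    linear_combination e2
  refine Quat.norm ?_ e3
  rw [Ne, map_eq_zero]
  exact hD0

end Pool.Agent.GSK

namespace Pool.Agent.TK

open scoped Quaternion

variable {M : Type} [Field M] [Algebra K M]

/-- **The quaternion algebra** `(-det n, n_00 n'_00)` is `(D2, -det n)`, `D2` the discriminant of the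
matrix `C_0`. -/
theorem Cub.Gen.chain {X : Cub ℂ} {n n' : Fin 3 → M} (h : X.Gen n n') (hn : X.NonDeg)
    (hM : Module.finrank K M = 3) {D2 : K}
    (hD : (GSX.tK - GSX.sK ^ 2) * D2 = (X.to.map (algebraMap ℂ K)).c GSX.sK GSX.tK 0 1 ^ 2 -
      (X.to.map (algebraMap ℂ K)).c GSX.sK GSX.tK 0 0 *
        (X.to.map (algebraMap ℂ K)).c GSX.sK GSX.tK 0 2)
    (hD0 : D2 ≠ 0) :
    Nonempty (ℍ[M, -det2 n, n 0 * n' 0] ≃ₐ[M] ℍ[M, algebraMap K M D2, -det2 n]) := by
  have h' := h.to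
  have hc : (X.to.map (algebraMap ℂ K)).c GSX.sK GSX.tK 0 0 ≠ 0 := GSK.c00_ne (X' := X.to) hn.a0
  have hn0' := h'.n0'_ne hM GSX.dK_ne hc
  have hn0 := h'.n0_ne hM GSX.dK_ne hc GSK.tK_ne two_ne_zero (GSK.hB_of (X' := X.to) hn.b0)
  obtain ⟨q₁⟩ := h'.chain1 GSX.dK_ne hn0 hn0'
  obtain ⟨q₂⟩ := h'.chain2 GSX.dK_ne hn0' hD hD0
  obtain ⟨q₃⟩ := GSK.Quat.swap (-det2 n) (algebraMap K M D2)
  exact ⟨(q₁.trans q₂.symm).trans q₃⟩

end Pool.Agent.TK
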