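import Pool.Agent.GSK.DFin
import Pool.Agent.GSE.GoodZ

/-!
# GSV: the theorem with the two K3 surfaces, with a polynomial `Δ` which is known

`prdAt D c s m n`: the product of the five polynomials in the definition of `GSN.Good`.
`exists_iff`: for every point `c, m, n` there is a polynomial `Δ` in the coefficients of a datum `D`
such that `Δ (D) ≠ 0` if and only if these polynomials do not vanish at `c, ± s, m, n`, and `B, E,
1, N` are linearly independent, and the form `w(v, K_0 v)` is nondegenerate.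
`final_iff`: the theorem with the two K3 surfaces holds with this `Δ`.
-/

set_option autoImplicit false

noncomputable section

namespace Pool.Agent.GSV

open Matrix MvPolynomial Pool.Agent.GSR Pool.Agent.GSN

section Ring

variable {F : Type} [CommRing F]

/-- the product of the five polynomials at the point `c`, `(1, m, n)` -/
def prdAt (D : Dat F) (c : Fin 2 → F) (s m n : F) : F :=
  D.B.det * WW D c s 0 0 * (MM D c s).det *
    res (MM D c s) (NN D c s) * D.hP (v3 D c s ![1, m, n])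

theorem map_prdAt {F' : Type} [CommRing F'] (f : F →+* F') (D : Dat F) (c : Fin 2 → F)
    (s m n : F) : prdAt (D.map f) (fun i => f (c i)) (f s) (f m) (f n) = f (prdAt D c s m n) := by
  have hz : (fun i => f ((![1, m, n] : Fin 3 → F) i)) = ![1, f m, f n] := by
    funext i
    fin_cases i
    · exact map_one f
    · rfl
    · rfl
  have h0 : (D.map f).B.det = f D.B.det := map_det' f _
  have h1 := map_WW f D c s 0 0
  have h2 := map_MM f D c s
  have h3 := map_NN f D c s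
  have h4 := map_v3 f D c s ![1, m, n]
  rw [hz] at h4
  rw [prdAt, h0, h1, h2, h3, h4, D.map_hP f, map_det3, map_res, prdAt]
  simp only [map_mul]

/-- the conditions of `Good` at one point -/
structure At (D : Dat F) (c : Fin 2 → F) (s m n : F) : Prop where
  s2 : s ^ 2 = D.s2 c
  B : D.B.det ≠ 0
  W : WW D c s 0 0 ≠ 0
  M : (MM D c s).det ≠ 0
  N : res (MM D c s) (NN D c s) ≠ 0
  P : D.NDegH (v3 D c s ![1, m, n])

theorem At.good {D : Dat F} {c : Fin 2 → F} {s m n : F} (h : At D c s m n) : Good D :=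
  ⟨c, s, m, n, h.s2, h.B, h.W, h.M, h.N, h.P⟩

theorem At.prd [NoZeroDivisors F] {D : Dat F} {c : Fin 2 → F} {s m n : F} (h : At D c s m n) :
    prdAt D c s m n ≠ 0 :=
  mul_ne_zero (mul_ne_zero (mul_ne_zero (mul_ne_zero h.B h.W) h.M) h.N) h.P

theorem at_of_prd {D : Dat F} {c : Fin 2 → F} {s m n : F} (hs : s ^ 2 = D.s2 c)
    (h : prdAt D c s m n ≠ 0) : At D c s m n := by
  unfold prdAt at h
  have h5 := right_ne_zero_of_mul h
  have h' := left_ne_zero_of_mul h
  have h4 := right_ne_zero_of_mul h'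
  have h'' := left_ne_zero_of_mul h'
  have h3 := right_ne_zero_of_mul h''
  have h''' := left_ne_zero_of_mul h''
  exact ⟨hs, left_ne_zero_of_mul h''', right_ne_zero_of_mul h''', h3, h4, h5⟩

end Ring

/-- the conditions on the datum -/
structure Cond (D : Dat ℂ) (c : Fin 2 → ℂ) (m n : ℂ) : Prop where
  prd : ∃ s, s ^ 2 = D.s2 c ∧ prdAt D c s m n ≠ 0 ∧ prdAt D c (-s) m n ≠ 0
  four : (four D).det ≠ 0
  W0 : (GSK.DK.W0 D ![0, 0]).det ≠ 0

/-- **The polynomial.** -/
theorem exists_iff (c : Fin 2 → ℂ) (m n : ℂ) : ∃ Δ : MvPolynomial Idx ℂ, ∀ D : Dat ℂ,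
    eval (coord D) Δ ≠ 0 ↔ Cond D c m n := by
  set R := MvPolynomial Idx ℂ with hR
  set RO := MvPolynomial (Option Idx) ℂ with hRO
  set G : Dat R := ofCoord X with hG
  set GO : Dat RO := ofCoord (fun i => X (some i)) with hGO
  set S : R := G.s2 (fun i => C (c i)) with hS
  set P : RO := prdAt GO (fun i => C (c i)) (X none) (C m) (C n) with hP
  obtain ⟨U, V, hUV⟩ := red S P
  set Δ₁ : R := U ^ 2 - S * V ^ 2 with hΔ₁
  set Δ₂ : R := (GSN.four G).det with hΔ₂
  set Δ₃ : R := (GSK.DK.W0 G ![0, 0]).det with hΔ₃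
  have hGm : ∀ D : Dat ℂ, G.map ((aeval (coord D) : R →ₐ[ℂ] ℂ) : R →+* ℂ) = D := by
    intro D
    rw [hG, map_ofCoord]
    have h3 : (fun i => ((aeval (coord D) : R →ₐ[ℂ] ℂ) : R →+* ℂ) (X i)) = coord D :=
      funext fun i => aeval_X _ i
    rw [h3]
    rfl
  -- the value of `S`
  have hSv : ∀ D : Dat ℂ, aeval (coord D) S = D.s2 c := by
    intro D
    have h1 := map_s2 ((aeval (coord D) : R →ₐ[ℂ] ℂ) : R →+* ℂ) G (fun i => C (c i))
    have h4 : (fun i => ((aeval (coord D) : R →ₐ[ℂ] ℂ) : R →+* ℂ) (C (c i))) = c :=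
      funext fun i => aeval_C _ _
    rw [hGm, h4] at h1
    exact h1.symm
  -- the value of `P`
  have hPv : ∀ (D : Dat ℂ) (s : ℂ),
      aeval (fun o : Option Idx => o.elim s (coord D)) P = prdAt D c s m n := by
    intro D s
    set φ : RO →ₐ[ℂ] ℂ := aeval (fun o : Option Idx => o.elim s (coord D)) with hφ
    have h1 := map_prdAt (φ : RO →+* ℂ) GO (fun i => C (c i)) (X none) (C m) (C n)
    have h2 : GO.map (φ : RO →+* ℂ) = D := by
      rw [hGO, map_ofCoord]
      have h3 : (fun i => (φ : RO →+* ℂ) (X (some i))) = coord D :=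
        funext fun i => aeval_X _ (some i)
      rw [h3]
      rfl
    have h4 : (fun i => (φ : RO →+* ℂ) (C (c i))) = c := funext fun i => aeval_C _ _
    have h5 : (φ : RO →+* ℂ) (X none) = s := aeval_X _ none
    have h6 : ∀ z : ℂ, (φ : RO →+* ℂ) (C z) = z := fun z => aeval_C _ z
    rw [h2, h4, h5, h6, h6] at h1
    exact h1.symm
  -- the value of `Δ₁`
  have hΔv : ∀ (D : Dat ℂ) (s : ℂ), s ^ 2 = D.s2 c →
      aeval (coord D) Δ₁ = prdAt D c s m n * prdAt D c (-s) m n := by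
    intro D s hs
    have h1 := hUV ℂ (coord D) s (by rw [hs, hSv])
    have h2 := hUV ℂ (coord D) (-s) (by rw [neg_sq, hs, hSv])
    rw [hPv] at h1 h2
    rw [hΔ₁, map_sub, map_mul, map_pow, map_pow, hSv, ← hs, h1, h2]
    ring
  have hΔ₂v : ∀ D : Dat ℂ, aeval (coord D) Δ₂ = (GSN.four D).det := by
    intro D
    have h1 := map_four ((aeval (coord D) : R →ₐ[ℂ] ℂ) : R →+* ℂ) G
    rw [hGm] at h1
    rw [hΔ₂, h1]
    exact RingHom.map_det _ _
  have hΔ₃v : ∀ D : Dat ℂ, aeval (coord D) Δ₃ = (GSK.DK.W0 D ![0, 0]).det := by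
    intro D
    have h1 := GSK.DK.map_W0 ((aeval (coord D) : R →ₐ[ℂ] ℂ) : R →+* ℂ) G ![0, 0]
    have h4 : (fun i => ((aeval (coord D) : R →ₐ[ℂ] ℂ) : R →+* ℂ) ((![0, 0] : Fin 2 → R) i)) =
        ![0, 0] := by
      funext i
      fin_cases i <;> exact map_zero _
    rw [hGm, h4] at h1
    rw [hΔ₃, h1]
    exact RingHom.map_det _ _
  have hval : ∀ D : Dat ℂ, ∀ Q : R, eval (coord D) Q = aeval (coord D) Q := fun D Q => rfl
  refine ⟨Δ₁ * Δ₂ * Δ₃, fun D => ?_⟩
  obtain ⟨s, hs⟩ : ∃ s : ℂ, s ^ 2 = D.s2 c := IsAlgClosed.exists_pow_nat_eq _ (by norm_num)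
  rw [hval, map_mul, map_mul, hΔv D s hs, hΔ₂v, hΔ₃v]
  constructor
  · intro h
    have h1 := left_ne_zero_of_mul h
    have h2 := left_ne_zero_of_mul h1
    exact ⟨⟨s, hs, left_ne_zero_of_mul h2, right_ne_zero_of_mul h2⟩, right_ne_zero_of_mul h1,
      right_ne_zero_of_mul h⟩
  · rintro ⟨⟨s', hs', h1, h2⟩, h3, h4⟩
    refine mul_ne_zero (mul_ne_zero (mul_ne_zero ?_ ?_) h3) h4
    · rcases sq_eq_sq_iff_eq_or_eq_neg.1 (hs.trans hs'.symm) with h | h
      · rw [h]
        exact h1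
      · rw [h]
        exact h2
    · rcases sq_eq_sq_iff_eq_or_eq_neg.1 (hs.trans hs'.symm) with h | h
      · rw [h]
        exact h2
      · rw [h, neg_neg]
        exact h1

theorem Cond.good {D : Dat ℂ} {c : Fin 2 → ℂ} {m n : ℂ} (h : Cond D c m n) : Good D := by
  obtain ⟨s, hs, h1, -⟩ := h.prd
  exact (at_of_prd hs h1).good

end Pool.Agent.GSV

namespace Pool.Agent.TK

open MvPolynomial Matrix
open scoped Quaternion

/-- The theorem for one datum. -/
theorem final_of (X : Cub ℂ) (D : Dat ℂ) (c : Fin 2 → K) (hn : X.NonDeg) (hirr : Irreducible X.F)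
    (hg : GSN.Good D.to) (hli : LinearIndependent ℂ ![D.to.B, D.to.E, 1, D.to.N])
    (hc : IntermediateField.adjoin ℂ (Set.range c) = ⊤) (hS : SameTwist X.pencil (D.pencil c)) :
    Pool.Agent.P28.Rational X.F := by
  rw [cub_pencil, dat_pencil] at hS
  rw [← X.to_F] at hirr ⊢
  exact GSF.same_rational X.to ⟨hn.det, hn.a0, hn.b0⟩ hirr D.to hg hli hc (sameTwist_of hS)

/-- The invariants of the pencil of a datum. -/
theorem Dat.Gen.eig_of (D : Dat ℂ) (c : Fin 2 → K) (hgood : GSN.Good D.to)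
    (hli : LinearIndependent ℂ ![D.to.B, D.to.E, 1, D.to.N])
    (hw0 : (GSK.DK.W0 D.to ![0, 0]).det ≠ 0)
    (hc : IntermediateField.adjoin ℂ (Set.range c) = ⊤)
    (M : Type) [Field M] [Algebra K M] (m : M) (hM : Module.finrank K M = 3) (hm : D.Gen c m)
    (hcls : (D.map (cc M)).cls (fun i => algebraMap K M (c i)) m ≠ 0) :
    ∃ E : (D.pencil c).Eig M, E.m = m ∧
      Nonempty (ℍ[M, algebraMap K M (D.pencil c).d, E.c] ≃ₐ[M]
        ℍ[M, (D.map (cc M)).sq (fun i => algebraMap K M (c i)),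
          (D.map (cc M)).cls (fun i => algebraMap K M (c i)) m]) := by
  have hw1 := GSK.DK.W0_ne D.to hw0 hc
  obtain ⟨_, _, _, _, _, hB, _⟩ := id hgood
  have hB' : (D.to.map (algebraMap ℂ K)).B.det ≠ 0 := by
    have h1 : (D.to.map (algebraMap ℂ K)).B.det = algebraMap ℂ K D.to.B.det := GSR.map_det' _ _
    rw [h1, Ne, map_eq_zero]
    exact hB
  have hns := GSF.s2_nsq D.to hB hli hc
  obtain ⟨v, hv, hv'⟩ := hm.surf
  have hM2 : CharZero M := charZero_of_injective_algebraMap (algebraMap K M).injective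
  have hcls' : 4 * ((D.map (cc M)).B.det * GSK.DK.ka (D.map (cc M)).to
      (fun i => algebraMap K M (c i)) m) ≠ 0 := by
    rw [← Dat.cls_eq]
    exact hcls
  have hka := right_ne_zero_of_mul (right_ne_zero_of_mul hcls')
  have hnd : (GSQ.pol (GSD.hd (D.to.map (algebraMap ℂ K)) c) 0).det ≠ 0 := hw1
  obtain ⟨F, hF, ⟨φ⟩⟩ := GSK.DK.exists_eig_hd (D.to.map (algebraMap ℂ K)) c m hM hB'
    (GSK.DK.Z_ne D.to hc) hns hnd hm.top hv hv' hka
  rw [dat_pencil]
  refine ⟨eigOf F, hF, ?_⟩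
  rw [eigOf_c]
  have hs : (D.map (cc M)).sq (fun i => algebraMap K M (c i)) =
      algebraMap K M (GSD.hd (D.to.map (algebraMap ℂ K)) c).d :=
    GSK.DK.s2_M (D.to.map (algebraMap ℂ K)) c
  have hdet : algebraMap K M (D.to.map (algebraMap ℂ K)).B.det = (D.map (cc M)).B.det :=
    (GSR.map_det' (algebraMap K M) (D.to.map (algebraMap ℂ K)).B).symm
  rw [hdet] at φ
  obtain ⟨ψ⟩ := GSK.Quat.norm (a := algebraMap K M (GSD.hd (D.to.map (algebraMap ℂ K)) c).d)
    (b := (D.map (cc M)).B.det * GSK.DK.ka (D.map (cc M)).to (fun i => algebraMap K M (c i)) m)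
    (x := 2) (y := 0) hcls (by rw [Dat.cls_eq]; ring)
  rw [hs]
  exact ⟨φ.trans ψ.symm⟩

/-- **The theorem with the two K3 surfaces**, with a known polynomial `Δ`. -/
theorem final_iff (c₀ : Fin 2 → ℂ) (m₀ n₀ : ℂ) : ∃ Δ : MvPolynomial Idx ℂ,
    (∀ D : Dat ℂ, eval D.coord Δ ≠ 0 ↔ GSV.Cond D.to c₀ m₀ n₀) ∧
    ∀ (X : Cub ℂ) (D : Dat ℂ) (c : Fin 2 → K), X.NonDeg → Irreducible X.F →
      eval D.coord Δ ≠ 0 → IntermediateField.adjoin ℂ (Set.range c) = ⊤ →
      ∀ (M : Type) [Field M] [Algebra K M] (n n' : Fin 3 → M) (m : M),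
        Module.finrank K M = 3 → X.Gen n n' → D.Gen c m →
        Nonempty (ℍ[M, -det2 n, n 0 * n' 0] ≃ₐ[M]
          ℍ[M, (D.map (cc M)).sq (fun i => algebraMap K M (c i)),
            (D.map (cc M)).cls (fun i => algebraMap K M (c i)) m]) →
        Pool.Agent.P28.Rational X.F := by
  obtain ⟨Δ, hΔ⟩ := GSV.exists_iff c₀ m₀ n₀
  refine ⟨Δ, fun D => hΔ D.to, fun X D c hn hirr hD hc M _ _ n n' m hM hg hm he => ?_⟩
  have hD' := (hΔ D.to).1 hD
  have hgood := hD'.good
  have hli := GSN.li_of_four hD'.four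
  obtain ⟨E₁, ⟨q₁⟩⟩ := hg.exists_eig hn hirr hM
  obtain ⟨q⟩ := he
  have hM2 : CharZero M := charZero_of_injective_algebraMap (algebraMap K M).injective
  have hd : algebraMap K M X.pencil.d ≠ 0 := by
    rw [Ne, map_eq_zero]
    exact GSX.dK_ne
  have hc0 : E₁.c ≠ 0 := by
    revert E₁
    rw [cub_pencil]
    intro E₁ _
    exact E₁.c_ne hM
  have hcls := GSK.Quat.ne_zero (two_ne_zero : (2 : M) ≠ 0) hd hc0 ⟨q₁.trans q⟩
  obtain ⟨E₂, -, ⟨q₂⟩⟩ := Dat.Gen.eig_of D c hgood hli hD'.W0 hc M m hM hm hcls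
  exact final_of X D c hn hirr hgood hli hc
    ⟨M, inferInstance, inferInstance, hM, E₁, E₂, ⟨(q₁.trans q).trans q₂.symm⟩⟩

end Pool.Agent.TK
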