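import Pool.Agent.GSV.Del

/-!
# GSV: a test for the conditions on a datum with integer coefficients
-/

set_option autoImplicit false

namespace Pool.Agent.GSV

open Matrix Pool.Agent.GSR Pool.Agent.GSN Pool.Agent.GSE Pool.Agent.GSE.GZ

section Ring

variable {F F' : Type} [CommRing F] [CommRing F'] {D : Dat F} {g : GC F}

/-- the test of `GSE.GoodZ` for the point `c, s, m, n` -/
theorem at_of_ok (h : g.Ok D) : At D g.c g.s g.m g.n := by
  have hz : D.Z g.c = g.z := by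
    rw [← Z_eq]
    ext i j
    exact h.z i j
  have hχ : D.χ g.c = fun i => D.δ i - g.c 1 * D.γ i := rfl
  have hw1 : WW D g.c g.s = g.w1 := by
    rw [← W_eq, hz]
    ext i j
    exact h.w1 i j
  have hw2 : WW D g.c (-g.s) = g.w2 := by
    rw [← W_eq, hz]
    ext i j
    exact h.w2 i j
  have hh1 : hh D g.c g.s = g.h1 := by
    rw [← hv_eq, hz, hw1, hχ]
    funext i j
    exact h.h1 i j
  have hh2 : hh D g.c (-g.s) = g.h2 := by
    rw [← hv_eq, hz, hw2, hχ]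
    funext i j
    exact h.h2 i j
  have hM : MM D g.c g.s = g.M := by
    ext j i
    have h1 : wx (g.h1 i) (g.h2 j) = g.M j i := h.M j i
    rw [← h1, wx_eq, MM, hh1, hh2]
  have hN : NN D g.c g.s = g.N := by
    ext j i
    have h1 : tau D g.c (g.h1 i) (g.h2 j) = g.N j i := h.N j i
    rw [← h1, tau_eq, NN, hh1, hh2]
  have hp : pp D g.c g.s ![1, g.m, g.n] = g.p := by
    funext i
    rw [← h.p i, pp, hh1]
    simp
  have hy : Phi D g.c g.s ![1, g.m, g.n] = g.y := by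
    funext i
    rw [← h.y i, Phi, hM, hN, mv3_eq, mv3_eq]
  have hq : qq D g.c g.s ![1, g.m, g.n] = g.q := by
    funext i
    rw [← h.q i, qq, hy, pp, hh2]
  have hv : v3 D g.c g.s ![1, g.m, g.n] = g.v := by
    funext i
    rw [← h.v i, v3, hp, hq, ← f21_eq, ← f21_eq, h.f1, h.f2]
  have he0 : D.e0 g.v = g.e0 := by
    funext i
    rw [← e0_eq, h.e0 i]
  have he1 : D.e1 g.v = g.e1 := by
    funext i
    rw [← e1_eq, h.e1 i]
  have he2 : D.e2 g.v = g.e2 := by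
    funext i
    rw [← e2_eq, h.e2 i]
  have hm : D.m g.v = g.mm := by rw [Dat.m, he1, he2, h.mm]
  have hp0 : D.p0 g.v = g.p0 := by rw [Dat.p0, he0, he2, h.p0]
  have hp1 : D.p1 g.v = g.p1 := by rw [Dat.p1, he1, he0, h.p1]
  have hM0 : D.hM0 g.v = g.M0 := by
    rw [Dat.hM0, hm, hp0, hp1, he1, ← tau0_eq, ← ta_eq, ← tb_eq, ← rho_eq, ← A0_eq, h.M0]
  have hM1 : D.hM1 g.v = g.M1 := by
    rw [Dat.hM1, hm, hp0, hp1, he2, ← tau0_eq, ← ta_eq, ← tb_eq, ← rho_eq, ← A1_eq, h.M1]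
  refine ⟨?_, ?_, ?_, ?_, ?_, ?_⟩
  · rw [Dat.s2, disc, hz, ← de_eq, ← de_eq, pow_two, pow_two, h.s]
  · rw [← de_eq]
    exact h.B
  · rw [hw1]
    exact h.w
  · rw [hM, ← de3_eq]
    exact h.dM
  · rw [hM, hN, ← rs_eq]
    exact h.rM
  · have h1 := h.P
    rw [hv, Dat.NDegH, Dat.hP, hm, hM0, hM1, ← lam_eq, ← mu_eq, ← mu_eq, ← su_eq]
    exact h1

/-- extension of scalars -/
theorem At.map (f : F →+* F') (hf : Function.Injective f) {c : Fin 2 → F} {s m n : F}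
    (h : At D c s m n) : At (D.map f) (fun i => f (c i)) (f s) (f m) (f n) := by
  have hne : ∀ {a : F}, a ≠ 0 → f a ≠ 0 := fun ha h0 => ha ((map_eq_zero_iff f hf).1 h0)
  refine ⟨?_, ?_, ?_, ?_, ?_, ?_⟩
  · rw [map_s2, ← h.s2, map_pow]
  · change (D.B.map f).det ≠ 0
    rw [map_det']
    exact hne h.B
  · rw [map_WW]
    exact hne h.W
  · rw [map_MM, map_det3]
    exact hne h.M
  · rw [map_MM, map_NN, map_res]
    exact hne h.N
  · have h7 : (![1, f m, f n] : Fin 3 → F') = fun i => f ((![1, m, n] : Fin 3 → F) i) := by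
      funext i
      fin_cases i <;> simp
    rw [h7, map_v3, Dat.NDegH, Dat.map_hP]
    exact hne h.P

/-- the operator `K_c` -/
def KZ (D : Dat F) (z : M2 F) (χ : Fin 4 → F) (v : Fin 6 → F) : Fin 6 → F :=
  ![2 * (v 0 * mu (ad D.B) z 0 0 + v 1 * mu (ad D.B) z 1 0) - mix D.B z * v 0,
    2 * (v 0 * mu (ad D.B) z 0 1 + v 1 * mu (ad D.B) z 1 1) - mix D.B z * v 1,
    2 * (mu z (ad D.B) 0 0 * v 2 + mu z (ad D.B) 0 1 * v 3) - mix D.B z * v 2,
    2 * (mu z (ad D.B) 1 0 * v 2 + mu z (ad D.B) 1 1 * v 3) - mix D.B z * v 3,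
    mix D.B z * v 4 + 2 * de z * v 5 - 2 * ln (ad z) χ v,
    -2 * de D.B * v 4 - mix D.B z * v 5 + 2 * ln (ad D.B) χ v]

theorem KZ_eq (D : Dat F) (c : Fin 2 → F) : KZ D (Z D c) (D.χ c) = D.K c := by
  funext v
  simp only [KZ, Z_eq, ad_eq, mu_eq, de_eq]
  rfl

/-- the unit vectors -/
def uv (i : Fin 6) : Fin 6 → F := fun j => if j = i then 1 else 0

theorem uv_eq (i : Fin 6) : (uv i : Fin 6 → F) = Pi.single i 1 := by
  funext j
  rw [uv, Pi.single_apply]

/-- the polar matrix of the form `w(v, K_0 v)` -/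
def W0Z (D : Dat F) (z : M2 F) (χ : Fin 4 → F) (i j : Fin 6) : F :=
  wx (uv i) (KZ D z χ (uv j)) + wx (uv j) (KZ D z χ (uv i))

theorem W0Z_eq (D : Dat F) (c : Fin 2 → F) (i j : Fin 6) :
    W0Z D (Z D c) (D.χ c) i j = GSK.DK.W0 D c i j := by
  rw [W0Z, KZ_eq, wx_eq, wx_eq, uv_eq, uv_eq]
  rfl

end Ring

/-- **The test.** -/
theorem cond_of {D : Dat ℤ} {g₁ g₂ : GC ℤ} (h₁ : g₁.Ok D) (h₂ : g₂.Ok D)
    (hc : ∀ i, g₂.c i = g₁.c i) (hs : g₂.s = -g₁.s) (hm : g₂.m = g₁.m) (hn : g₂.n = g₁.n)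
    (hf : (four D).det ≠ 0) (V : Fin 6 → Fin 6 → ℤ) (d : ℤ) (hd : d ≠ 0)
    (hV : ∀ i j, s6 (fun k => W0Z D D.E D.δ i k * V k j) = if i = j then d else 0) :
    Cond (D.map (Int.castRingHom ℂ)) (fun i => (g₁.c i : ℂ)) g₁.m g₁.n := by
  have hinj : Function.Injective (Int.castRingHom ℂ) := Int.cast_injective
  refine ⟨⟨(g₁.s : ℂ), ?_, ?_, ?_⟩, ?_, ?_⟩
  · exact ((at_of_ok h₁).map (Int.castRingHom ℂ) hinj).s2
  · exact ((at_of_ok h₁).map (Int.castRingHom ℂ) hinj).prd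
  · have h := ((at_of_ok h₂).map (Int.castRingHom ℂ) hinj).prd
    have hc' : g₂.c = g₁.c := funext hc
    rw [hc', hs, hm, hn, map_neg] at h
    exact h
  · have h1 := map_four (Int.castRingHom ℂ) D
    rw [h1]
    have h2 : ((four D).map (Int.castRingHom ℂ)).det = Int.castRingHom ℂ (four D).det :=
      (RingHom.map_det _ _).symm
    rw [h2]
    exact fun h3 => hf ((map_eq_zero_iff _ hinj).1 h3)
  · have hZ : Z D ![0, 0] = D.E := by
      ext i j
      fin_cases i <;> fin_cases j <;> simp [Z]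
    have hχ : D.χ ![0, 0] = D.δ := by
      funext i
      simp [Dat.χ]
    have h0 : GSK.DK.W0 D ![0, 0] * Matrix.of V = d • 1 := by
      ext i j
      rw [Matrix.mul_apply, Fin.sum_univ_six]
      have h1 := hV i j
      have h2 : ∀ k, GSK.DK.W0 D ![0, 0] i k = W0Z D D.E D.δ i k := by
        intro k
        rw [← W0Z_eq, hZ, hχ]
      rw [h2, h2, h2, h2, h2, h2, Matrix.smul_apply, Matrix.one_apply, smul_eq_mul, mul_ite,
        mul_one, mul_zero]
      exact h1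
    have h1 : (GSK.DK.W0 D ![0, 0]).det ≠ 0 := by
      intro h
      have h3 := congrArg Matrix.det h0
      rw [Matrix.det_mul, h, zero_mul, Matrix.det_smul, Matrix.det_one, mul_one] at h3
      exact pow_ne_zero _ hd h3.symm
    have h2 := GSK.DK.map_W0 (Int.castRingHom ℂ) D ![0, 0]
    have h4 : (fun i => (Int.castRingHom ℂ) ((![0, 0] : Fin 2 → ℤ) i)) = ![0, 0] := by
      funext i
      fin_cases i <;> simp
    rw [h4] at h2
    rw [h2]
    have h3 : ((GSK.DK.W0 D ![0, 0]).map (Int.castRingHom ℂ)).det =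
        Int.castRingHom ℂ (GSK.DK.W0 D ![0, 0]).det := (RingHom.map_det _ _).symm
    rw [h3]
    exact fun h5 => h1 ((map_eq_zero_iff _ hinj).1 h5)

end Pool.Agent.GSV
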