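import Pool.Agent.GSV.Frac

/-!
# GSV: irreducible cubic polynomials over `ℂ(s, t)`

`irr F D`: a test for tables `F`: in `F_0` the exponent of `t` is at most `D`, and `D` occurs, `3` does not divide `D`, in
`F_1`, `F_2` the exponents of `t` are at most `2 D / 3`, `D / 3`. Then (Newton polygon at `t = ∞`: total ramification)
`z ^ 3 = F_0 + F_1 z + F_2 z ^ 2` has no solution in `ℂ(s, t)`, and the polynomial is irreducible. `exists_ext`: the
extension of degree 3.
-/

set_option autoImplicit false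

noncomputable section

namespace Pool.Agent.GSV

open MvPolynomial X3

/-! ### Coefficients of tables -/

theorem coeff_hy (l : List ℤ) (m : Fin 2 →₀ ℕ) :
    coeff m (hy (fun a : ℤ => (a : MvPolynomial (Fin 2) ℂ)) (· + ·) (· * ·) (X 1) l) =
      if m 0 = 0 then ((l.getD (m 1) 0 : ℤ) : ℂ) else 0 := by
  induction l generalizing m with
  | nil => simp [hy]
  | cons a l ih =>
    rw [hy, coeff_add, coeff_X_mul', ih]
    have h1 : (a : MvPolynomial (Fin 2) ℂ) = C (a : ℂ) := by simp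
    rw [h1, coeff_C]
    rcases Nat.eq_zero_or_pos (m 1) with h | h
    · have h2 : (1 : Fin 2) ∉ m.support := by simp [h]
      rw [if_neg h2, h, List.getD_cons_zero, add_zero]
      by_cases h3 : m 0 = 0
      · have h4 : (0 : Fin 2 →₀ ℕ) = m := by
          ext i
          fin_cases i
          · exact h3.symm
          · exact h.symm
        rw [if_pos h4, if_pos h3]
      · have h4 : (0 : Fin 2 →₀ ℕ) ≠ m := by
          rintro rfl
          exact h3 rfl
        rw [if_neg h4, if_neg h3]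
    · have h2 : (1 : Fin 2) ∈ m.support := by simp [h.ne']
      have h4 : (0 : Fin 2 →₀ ℕ) ≠ m := by
        rintro rfl
        exact absurd h (lt_irrefl 0)
      obtain ⟨k, hk⟩ := Nat.exists_eq_succ_of_ne_zero h.ne'
      rw [if_pos h2, if_neg h4, zero_add]
      have h5 : (m - Finsupp.single 1 1 : Fin 2 →₀ ℕ) 0 = m 0 := by simp
      have h6 : (m - Finsupp.single 1 1 : Fin 2 →₀ ℕ) 1 = k := by simp [hk]
      rw [h5, h6, hk, List.getD_cons_succ]

theorem coeff_hx (T : List (List ℤ)) (m : Fin 2 →₀ ℕ) :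
    coeff m (vx (X 0) (X 1) T : MvPolynomial (Fin 2) ℂ) =
      (((T.getD (m 0) []).getD (m 1) 0 : ℤ) : ℂ) := by
  unfold vx
  induction T generalizing m with
  | nil => simp [hx]
  | cons r T ih =>
    rw [hx, coeff_add, coeff_X_mul', ih, coeff_hy]
    rcases Nat.eq_zero_or_pos (m 0) with h | h
    · have h2 : (0 : Fin 2) ∉ m.support := by simp [h]
      rw [if_neg h2, if_pos h, h, List.getD_cons_zero, add_zero]
    · have h2 : (0 : Fin 2) ∈ m.support := by simp [h.ne']
      obtain ⟨k, hk⟩ := Nat.exists_eq_succ_of_ne_zero h.ne'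
      rw [if_pos h2, if_neg h.ne', zero_add]
      have h5 : (m - Finsupp.single 0 1 : Fin 2 →₀ ℕ) 1 = m 1 := by simp
      have h6 : (m - Finsupp.single 0 1 : Fin 2 →₀ ℕ) 0 = k := by simp [hk]
      rw [h5, h6, hk, List.getD_cons_succ]

/-- the exponents of `t` are at most `D` -/
def rle (T : List (List ℤ)) (D : ℕ) : Bool := T.all fun r => Nat.ble r.length (D + 1)

/-- the exponent `D` of `t` occurs -/
def rtop (T : List (List ℤ)) (D : ℕ) : Bool := T.any fun r => !isz (r.getD D 0)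

theorem degreeOf_le_of_rle {T : List (List ℤ)} {D : ℕ} (h : rle T D = true) :
    degreeOf 1 (vx (X 0) (X 1) T : MvPolynomial (Fin 2) ℂ) ≤ D := by
  rw [degreeOf_le_iff]
  intro m hm
  rw [mem_support_iff, coeff_hx] at hm
  by_contra h1
  apply hm
  have h2 : (T.getD (m 0) []).length ≤ D + 1 := by
    rcases lt_or_ge (m 0) T.length with h3 | h3
    · rw [List.getD_eq_getElem _ _ h3]
      exact Nat.le_of_ble_eq_true (List.all_eq_true.1 h _ (List.getElem_mem h3))
    · rw [List.getD_eq_default _ _ h3]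
      exact Nat.zero_le _
  rw [List.getD_eq_default _ _ (by omega)]
  exact Int.cast_zero

theorem le_degreeOf_of_rtop {T : List (List ℤ)} {D : ℕ} (h : rtop T D = true) :
    D ≤ degreeOf 1 (vx (X 0) (X 1) T : MvPolynomial (Fin 2) ℂ) ∧
      (vx (X 0) (X 1) T : MvPolynomial (Fin 2) ℂ) ≠ 0 := by
  obtain ⟨r, hr, h1⟩ := List.any_eq_true.1 h
  obtain ⟨i, hi, rfl⟩ := List.getElem_of_mem hr
  set m : Fin 2 →₀ ℕ := Finsupp.single 0 i + Finsupp.single 1 D with hm
  have hm0 : m 0 = i := by simp [hm]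
  have hm1 : m 1 = D := by simp [hm]
  have h2 : coeff m (vx (X 0) (X 1) T : MvPolynomial (Fin 2) ℂ) ≠ 0 := by
    rw [coeff_hx, hm0, hm1, List.getD_eq_getElem _ _ hi]
    intro h3
    have h4 : (T[i].getD D 0 : ℤ) = 0 := by exact_mod_cast h3
    rw [h4] at h1
    exact absurd h1 (by decide)
  refine ⟨?_, fun h3 => h2 ?_⟩
  · have h3 := monomial_le_degreeOf (1 : Fin 2) (mem_support_iff.2 h2)
    rwa [hm1] at h3
  · rw [h3, coeff_zero]

/-! ### No root -/

private theorem deg3 {R : Type} [CommRing R] [IsDomain R] (P Q A : MvPolynomial (Fin 2) R) (a b : ℕ)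
    (hP : P ≠ 0) (hQ : Q ≠ 0) :
    degreeOf 1 (A * P ^ a * Q ^ b) ≤ degreeOf 1 A + a * degreeOf 1 P + b * degreeOf 1 Q := by
  refine (degreeOf_mul_le _ _ _).trans ?_
  refine Nat.add_le_add ((degreeOf_mul_le _ _ _).trans ?_) ?_
  · rw [degreeOf_pow_eq _ _ _ hP]
  · rw [degreeOf_pow_eq _ _ _ hQ]

theorem no_pair {R : Type} [CommRing R] [IsDomain R] {A₀ A₁ A₂ : MvPolynomial (Fin 2) R} {D : ℕ}
    (h0 : A₀ ≠ 0) (hD : degreeOf 1 A₀ = D) (h3 : D % 3 ≠ 0) (h1 : 3 * degreeOf 1 A₁ ≤ 2 * D)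
    (h2 : 3 * degreeOf 1 A₂ ≤ D) (P Q : MvPolynomial (Fin 2) R) (hQ : Q ≠ 0)
    (h : P ^ 3 = A₀ * Q ^ 3 + A₁ * P * Q ^ 2 + A₂ * P ^ 2 * Q) : False := by
  have hP : P ≠ 0 := by
    rintro rfl
    have h4 : A₀ * Q ^ 3 = 0 := by
      rw [zero_pow (by norm_num), zero_pow (by norm_num)] at h
      linear_combination -h
    exact mul_ne_zero h0 (pow_ne_zero 3 hQ) h4
  have e1 : degreeOf 1 (P ^ 3) = 3 * degreeOf 1 P := degreeOf_pow_eq _ _ _ hP
  have e2 : degreeOf 1 (A₀ * Q ^ 3) = D + 3 * degreeOf 1 Q := by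
    rw [degreeOf_mul_eq h0 (pow_ne_zero 3 hQ), degreeOf_pow_eq _ _ _ hQ, hD]
  have e3 := deg3 P Q A₁ 1 2 hP hQ
  have e4 := deg3 P Q A₂ 2 1 hP hQ
  rw [pow_one] at e3 e4
  rcases lt_trichotomy (3 * degreeOf 1 P) (D + 3 * degreeOf 1 Q) with h5 | h5 | h5
  · have h6 : A₀ * Q ^ 3 = P ^ 3 - A₁ * P * Q ^ 2 - A₂ * P ^ 2 * Q := by rw [h]; ring
    have h7 : degreeOf 1 (P ^ 3 - A₁ * P * Q ^ 2 - A₂ * P ^ 2 * Q) < D + 3 * degreeOf 1 Q := by
      refine (degreeOf_sub_le _ _ _).trans_lt (max_lt ((degreeOf_sub_le _ _ _).trans_lt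
        (max_lt (e1.trans_lt h5) ?_)) ?_)
      · omega
      · omega
    rw [← h6, e2] at h7
    exact lt_irrefl _ h7
  · omega
  · have h7 : degreeOf 1 (A₀ * Q ^ 3 + A₁ * P * Q ^ 2 + A₂ * P ^ 2 * Q) < 3 * degreeOf 1 P := by
      refine (degreeOf_add_le _ _ _).trans_lt (max_lt ((degreeOf_add_le _ _ _).trans_lt
        (max_lt (e2.trans_lt h5) ?_)) ?_)
      · omega
      · omega
    rw [← h, e1] at h7
    exact lt_irrefl _ h7

/-- the test -/
def irr (F : List (List (List ℤ))) (D : ℕ) : Bool :=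
  rle (F.getD 0 []) D && rtop (F.getD 0 []) D && !Nat.beq (D % 3) 0 &&
    rle (F.getD 1 []) (2 * D / 3) && rle (F.getD 2 []) (D / 3)

theorem vx_K (T : List (List ℤ)) : vx (TK.var 0) (TK.var 1) T =
    algebraMap (MvPolynomial (Fin 2) ℂ) TK.K (vx (X 0) (X 1) T) := by
  have h := hx_map (algebraMap (MvPolynomial (Fin 2) ℂ) TK.K)
    (fun a : ℤ => (a : MvPolynomial (Fin 2) ℂ)) (X 0) (X 1) T
  simp only [map_intCast] at h
  exact h.symm

/-- **No solution in `ℂ(s, t)`.** -/
theorem no_root {F : List (List (List ℤ))} {D : ℕ} (h : irr F D = true) (z : TK.K) :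
    z ^ 3 ≠ vx (TK.var 0) (TK.var 1) (F.getD 0 []) + vx (TK.var 0) (TK.var 1) (F.getD 1 []) * z +
      vx (TK.var 0) (TK.var 1) (F.getD 2 []) * z ^ 2 := by
  unfold irr at h
  simp only [Bool.and_eq_true, Bool.not_eq_true'] at h
  obtain ⟨⟨⟨⟨g1, g2⟩, g3⟩, g4⟩, g5⟩ := h
  intro h0
  obtain ⟨P, Q, hQ, rfl⟩ := IsFractionRing.div_surjective (A := MvPolynomial (Fin 2) ℂ) z
  have hQ0 : Q ≠ 0 := nonZeroDivisors.ne_zero hQ
  have hQ1 : algebraMap (MvPolynomial (Fin 2) ℂ) TK.K Q ≠ 0 := by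
    rw [Ne, map_eq_zero_iff _ (IsFractionRing.injective (MvPolynomial (Fin 2) ℂ) TK.K)]
    exact hQ0
  obtain ⟨k1, k2⟩ := le_degreeOf_of_rtop g2
  have k3 := degreeOf_le_of_rle g1
  have k4 := degreeOf_le_of_rle g4
  have k5 := degreeOf_le_of_rle g5
  have g6 : D % 3 ≠ 0 := fun h => by
    rw [h] at g3
    exact absurd g3 (by decide)
  refine no_pair (A₁ := vx (X 0) (X 1) (F.getD 1 [])) (A₂ := vx (X 0) (X 1) (F.getD 2 [])) k2
    (le_antisymm k3 k1) g6 (by omega) (by omega) P Q hQ0 ?_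
  apply IsFractionRing.injective (MvPolynomial (Fin 2) ℂ) TK.K
  simp only [vx_K] at h0
  simp only [map_add, map_mul, map_pow]
  field_simp at h0
  linear_combination h0

/-- **The extension of degree 3.** -/
theorem exists_ext {F : List (List (List ℤ))} {D : ℕ} (h : irr F D = true) :
    ∃ (M : Type) (_ : Field M) (_ : Algebra TK.K M) (z : M), Module.finrank TK.K M = 3 ∧
      z ∉ Set.range (algebraMap TK.K M) ∧
      Fr.Root F (algebraMap TK.K M (TK.var 0)) (algebraMap TK.K M (TK.var 1)) z := by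
  set a₀ := vx (TK.var 0) (TK.var 1) (F.getD 0 []) with ha0
  set a₁ := vx (TK.var 0) (TK.var 1) (F.getD 1 []) with ha1
  set a₂ := vx (TK.var 0) (TK.var 1) (F.getD 2 []) with ha2
  set f : Polynomial TK.K := Polynomial.X ^ 3 - (Polynomial.C a₂ * Polynomial.X ^ 2 +
    Polynomial.C a₁ * Polynomial.X + Polynomial.C a₀) with hf
  have hnat : f.natDegree = 3 := by
    rw [hf]
    compute_degree!
  have hmon : f.Monic := by
    rw [hf]
    monicity!
  have hirr : Irreducible f := by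
    rw [hmon.irreducible_iff_roots_eq_zero_of_degree_le_three (by omega) (by omega)]
    rw [Multiset.eq_zero_iff_forall_notMem]
    intro z hz
    rw [Polynomial.mem_roots hmon.ne_zero, Polynomial.IsRoot.def, hf] at hz
    simp only [Polynomial.eval_sub, Polynomial.eval_add, Polynomial.eval_mul, Polynomial.eval_pow,
      Polynomial.eval_X, Polynomial.eval_C] at hz
    exact no_root h z (by linear_combination hz)
  have hae : ∀ (M : Type) [Field M] [Algebra TK.K M] (z : M), Polynomial.aeval z f =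
      z ^ 3 - (algebraMap TK.K M a₂ * z ^ 2 + algebraMap TK.K M a₁ * z + algebraMap TK.K M a₀) := by
    intro M _ _ z
    rw [hf]
    simp only [map_sub, map_add, map_mul, map_pow, Polynomial.aeval_X, Polynomial.aeval_C]
  have hfact : Fact (Irreducible f) := ⟨hirr⟩
  refine ⟨AdjoinRoot f, inferInstance, inferInstance, AdjoinRoot.root f, ?_, ?_, ?_⟩
  · rw [(AdjoinRoot.powerBasis hirr.ne_zero).finrank, AdjoinRoot.powerBasis_dim, hnat]
  · rintro ⟨k, hk⟩
    have h1 : Polynomial.aeval (algebraMap TK.K (AdjoinRoot f) k) f = 0 := by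
      rw [hk]
      exact AdjoinRoot.eval₂_root f
    rw [Polynomial.aeval_algebraMap_apply, map_eq_zero, hae TK.K k] at h1
    simp only [Algebra.algebraMap_self, RingHom.id_apply] at h1
    exact no_root h k (by linear_combination h1)
  · have h1 : Polynomial.aeval (AdjoinRoot.root f) f = 0 := AdjoinRoot.eval₂_root f
    rw [hae (AdjoinRoot f) (AdjoinRoot.root f)] at h1
    have e : ∀ T : List (List ℤ), algebraMap TK.K (AdjoinRoot f) (vx (TK.var 0) (TK.var 1) T) =
        vx (algebraMap TK.K (AdjoinRoot f) (TK.var 0)) (algebraMap TK.K (AdjoinRoot f) (TK.var 1))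
          T := by
      intro T
      have h2 := hx_map (algebraMap TK.K (AdjoinRoot f)) (fun a : ℤ => (a : TK.K)) (TK.var 0)
        (TK.var 1) T
      simp only [map_intCast] at h2
      exact h2
    unfold Fr.Root
    rw [← e, ← e, ← e]
    linear_combination h1

end Pool.Agent.GSV
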