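import Pool.Agent.GSV.Iso4
import Pool.Agent.GSV.D4
import Pool.Agent.GSV.Irr

/-!
# GSV: the theorem with the two K3 surfaces and an example

`example4`: a smooth cubic fourfold, a datum, parameters and points of the two K3 surfaces with all the
conditions of the theorem.
-/

set_option autoImplicit false
set_option maxRecDepth 100000

noncomputable section

namespace Pool.Agent.GSV.Q4

open MvPolynomial X3
open scoped Quaternion

theorem D_to : (DC D).to = D4.map (Int.castRingHom ℂ) := rfl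

theorem irrF : GSV.irr F 8 = true := by decide +kernel

/-- **The theorem with the two K3 surfaces**, with an example. -/
theorem example4 : ∃ Δ : MvPolynomial TK.Idx ℂ,
    (∀ (X : TK.Cub ℂ) (D : TK.Dat ℂ) (c : Fin 2 → TK.K), X.NonDeg → Irreducible X.F →
      eval D.coord Δ ≠ 0 → IntermediateField.adjoin ℂ (Set.range c) = ⊤ →
      ∀ (M : Type) [Field M] [Algebra TK.K M] (n n' : Fin 3 → M) (m : M),
        Module.finrank TK.K M = 3 → X.Gen n n' → D.Gen c m →
        Nonempty (ℍ[M, -TK.det2 n, n 0 * n' 0] ≃ₐ[M]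
          ℍ[M, (D.map (TK.cc M)).sq (fun i => algebraMap TK.K M (c i)),
            (D.map (TK.cc M)).cls (fun i => algebraMap TK.K M (c i)) m]) →
        Pool.Agent.P28.Rational X.F) ∧
    ∃ (X : TK.Cub ℂ) (D : TK.Dat ℂ) (c : Fin 2 → TK.K) (M : Type) (_ : Field M)
      (_ : Algebra TK.K M) (n n' : Fin 3 → M) (m : M), P28.PSmooth X.F ∧ X.NonDeg ∧
      Irreducible X.F ∧ eval D.coord Δ ≠ 0 ∧ IntermediateField.adjoin ℂ (Set.range c) = ⊤ ∧
      Module.finrank TK.K M = 3 ∧ X.Gen n n' ∧ D.Gen c m ∧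
      Nonempty (ℍ[M, -TK.det2 n, n 0 * n' 0] ≃ₐ[M]
        ℍ[M, (D.map (TK.cc M)).sq (fun i => algebraMap TK.K M (c i)),
          (D.map (TK.cc M)).cls (fun i => algebraMap TK.K M (c i)) m]) := by
  obtain ⟨Δ, hΔ, h⟩ := TK.final_iff ![4, 0] 1 1
  obtain ⟨M, hMf, hMa, z, hM, hzK, hz⟩ := exists_ext irrF
  refine ⟨Δ, h, XC X, DC D, fun i => valK (c i), M, hMf, hMa, fun i => val M z (n i),
    fun i => val M z (n' i), val M z m, smooth, nondeg, irr, ?_, top, hM, cub_gen hM hzK hz,
    dat_gen hM hzK hz, iso hM hzK hz⟩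
  rw [hΔ, D_to]
  exact cond

end Pool.Agent.GSV.Q4
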