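import Pool.Agent.GSV.Mod
import Pool.Agent.GSK.DDefs

/-!
# GSV: the formulas of the two K3 surfaces in terms of entries

The functions of this file are defined for every type with addition, subtraction, multiplication and
integer constants `κ`. `om_eq`, `op_eq`, `sq_eq`, `cls_eq`: in a commutative ring they are the
functions `Dat.om`, `Dat.op`, `Dat.sq`, `Dat.cls`. `Hm`: maps which respect the operations.
-/

set_option autoImplicit false

namespace Pool.Agent.GSV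

open Matrix

namespace G

section

variable {A : Type} [Add A] [Sub A] [Mul A] (κ : ℤ → A)

/-- the mixed determinant -/
def mix (B Z : Fin 2 → Fin 2 → A) : A :=
  B 0 0 * Z 1 1 + B 1 1 * Z 0 0 - B 0 1 * Z 1 0 - B 1 0 * Z 0 1

/-- the determinant -/
def de (M : Fin 2 → Fin 2 → A) : A := M 0 0 * M 1 1 - M 0 1 * M 1 0

/-- the adjugate -/
def ad (M : Fin 2 → Fin 2 → A) : Fin 2 → Fin 2 → A :=
  ![![M 1 1, κ 0 - M 0 1], ![κ 0 - M 1 0, M 0 0]]

/-- the product -/
def mu (M N : Fin 2 → Fin 2 → A) (i j : Fin 2) : A := M i 0 * N 0 j + M i 1 * N 1 j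

/-- the trace of the product -/
def tr (M N : Fin 2 → Fin 2 → A) : A := mu M N 0 0 + mu M N 1 1

/-- the coefficients of the linear form `ln M c` -/
def le (M : Fin 2 → Fin 2 → A) (c : Fin 4 → A) : Fin 4 → A :=
  ![M 0 0 * c 0 + M 0 1 * c 1, M 1 0 * c 0 + M 1 1 * c 1, c 2 * M 0 0 + c 3 * M 1 0,
    c 2 * M 0 1 + c 3 * M 1 1]

/-- the matrix `Z` -/
def Z (D : TK.Dat A) (c : Fin 2 → A) : Fin 2 → Fin 2 → A :=
  ![![D.E 0 0 - c 0 - c 1 * D.N 0 0, D.E 0 1 - c 1 * D.N 0 1],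
    ![D.E 1 0 - c 1 * D.N 1 0, D.E 1 1 - c 0 - c 1 * D.N 1 1]]

/-- the vector `χ` -/
def χ (D : TK.Dat A) (c : Fin 2 → A) (i : Fin 4) : A := D.δ i - c 1 * D.γ i

/-- the number `sq` -/
def sq (D : TK.Dat A) (c : Fin 2 → A) : A :=
  mix D.B (Z D c) * mix D.B (Z D c) - κ 4 * (de D.B * de (Z D c))

/-- the matrix of the operator -/
def op (D : TK.Dat A) (c : Fin 2 → A) : Fin 6 → Fin 6 → A :=
  let Z := Z D c
  let mx := mix D.B Z
  let P := mu (ad κ D.B) Z
  let P' := mu Z (ad κ D.B)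
  let a := le (ad κ Z) (χ D c)
  let b := le (ad κ D.B) (χ D c)
  ![![κ 2 * P 0 0 - mx, κ 2 * P 1 0, κ 0, κ 0, κ 0, κ 0],
    ![κ 2 * P 0 1, κ 2 * P 1 1 - mx, κ 0, κ 0, κ 0, κ 0],
    ![κ 0, κ 0, κ 2 * P' 0 0 - mx, κ 2 * P' 0 1, κ 0, κ 0],
    ![κ 0, κ 0, κ 2 * P' 1 0, κ 2 * P' 1 1 - mx, κ 0, κ 0],
    ![κ (-2) * a 0, κ (-2) * a 1, κ (-2) * a 2, κ (-2) * a 3, mx, κ 2 * de Z],
    ![κ 2 * b 0, κ 2 * b 1, κ 2 * b 2, κ 2 * b 3, κ (-2) * de D.B, κ 0 - mx]]

/-- the upper half of the matrix of the form `m w - τ_c` -/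
def omU (D : TK.Dat A) (c : Fin 2 → A) (m : A) : Fin 6 → Fin 6 → A :=
  let n := le (ad κ D.N) D.γ
  let T := fun i j : Fin 6 => D.t j i - D.t i j
  ![![κ 0, T 0 1, m + T 0 2 - c 0 * D.N 0 0, T 0 3 - c 0 * D.N 0 1,
      T 0 4 + (c 0 * D.γ 0 + c 1 * n 0), T 0 5],
    ![κ 0, κ 0, T 1 2 - c 0 * D.N 1 0, m + T 1 3 - c 0 * D.N 1 1,
      T 1 4 + (c 0 * D.γ 1 + c 1 * n 1), T 1 5],
    ![κ 0, κ 0, κ 0, T 2 3, T 2 4 + (c 0 * D.γ 2 + c 1 * n 2), T 2 5],
    ![κ 0, κ 0, κ 0, κ 0, T 3 4 + (c 0 * D.γ 3 + c 1 * n 3), T 3 5],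
    ![κ 0, κ 0, κ 0, κ 0, κ 0, m + T 4 5 + c 1 * de D.N],
    ![κ 0, κ 0, κ 0, κ 0, κ 0, κ 0]]

/-- the number `om(e_i, e_j)` -/
def om (D : TK.Dat A) (c : Fin 2 → A) (m : A) (i j : Fin 6) : A :=
  if i < j then omU κ D c m i j else if j < i then κ 0 - omU κ D c m j i else κ 0

/-- the number `om(g_i, g_j)` -/
def og (D : TK.Dat A) (c : Fin 2 → A) (m : A) (i j : Fin 4) : A :=
  de D.B * (de D.B * om κ D c m (Fin.castLE (by decide) i) (Fin.castLE (by decide) j) +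
    (le (ad κ D.B) (χ D c) j * om κ D c m (Fin.castLE (by decide) i) 4 -
      le (ad κ D.B) (χ D c) i * om κ D c m (Fin.castLE (by decide) j) 4))

/-- the number `cls` -/
def cls (D : TK.Dat A) (c : Fin 2 → A) (m : A) : A :=
  let Z := Z D c
  let mx := mix D.B Z
  let R := ![![og κ D c m 0 2, og κ D c m 0 3], ![og κ D c m 1 2, og κ D c m 1 3]]
  (κ 2 * (de D.B * tr Z R) - mx * tr D.B R) * (κ 2 * (de D.B * tr Z R) - mx * tr D.B R) -
    sq κ D c * (tr D.B R * tr D.B R -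
      κ 4 * (de D.B * (de R - og κ D c m 0 1 * og κ D c m 2 3)))

/-- the sum over six indices -/
def s6 (f : Fin 6 → A) : A := f 0 + f 1 + f 2 + f 3 + f 4 + f 5

/-- the coefficients of `u ↦ om(v, K_c u) - om(K_c v, u)` -/
def deg (D : TK.Dat A) (c : Fin 2 → A) (m : A) (v : Fin 6 → A) (k : Fin 6) : A :=
  s6 (fun j => s6 (fun i => v i * om κ D c m i j) * op κ D c j k) -
    s6 (fun i => s6 (fun j => op κ D c i j * v j) * om κ D c m i k)

/-! The surface of the cubic. -/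

/-- the trace of the product of two symmetric matrices -/
def tr2 (n a : Fin 3 → A) : A := n 0 * a 0 + κ 2 * (n 1 * a 1) + n 2 * a 2

/-- the linear form `g_k` -/
def gg (X : TK.Cub A) (n n' : Fin 3 → A) (k : Fin 6) : A := tr2 κ n' (X.b k) - tr2 κ n (X.a k)

/-- the determinant of a symmetric matrix -/
def d2 (n : Fin 3 → A) : A := n 0 * n 2 - n 1 * n 1

/-- the number `(x, y) adj(n) (x, y)ᵀ` -/
def a2 (n : Fin 3 → A) (x y : A) : A := n 2 * (x * x) - κ 2 * (n 1 * (x * y)) + n 0 * (y * y)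

/-- the cubic equation -/
def cu (X : TK.Cub A) (n n' : Fin 3 → A) : A :=
  κ 4 * (gg κ X n n' 5 * d2 n) + a2 κ n (gg κ X n n' 1) (gg κ X n n' 2) -
    a2 κ n' (gg κ X n n' 3) (gg κ X n n' 4)

end

/-! ### Commutative rings -/

section

variable {R : Type} [CommRing R] (D : TK.Dat R) (c : Fin 2 → R) (m : R)

/-- the integers in a ring -/
abbrev ic (R : Type) [CommRing R] (a : ℤ) : R := (a : R)

theorem Z_eq (i j : Fin 2) : Z D c i j = D.Z c i j := by
  fin_cases i <;> fin_cases j <;> simp [Z, TK.Dat.Z]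

theorem de_eq (M : Matrix (Fin 2) (Fin 2) R) : de (fun i j => M i j) = M.det :=
  (det_fin_two M).symm

theorem ad_eq (M : Matrix (Fin 2) (Fin 2) R) (i j : Fin 2) :
    ad (ic R) (fun i j => M i j) i j = M.adjugate i j := by
  rw [adjugate_fin_two]
  fin_cases i <;> fin_cases j <;> simp [ad, ic]

theorem le_eq (M : Matrix (Fin 2) (Fin 2) R) (c : Fin 4 → R) (v : Fin 6 → R) :
    TK.ln M c v = v 0 * le (fun i j => M i j) c 0 + v 1 * le (fun i j => M i j) c 1 +
      v 2 * le (fun i j => M i j) c 2 + v 3 * le (fun i j => M i j) c 3 := by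
  simp [TK.ln, le]
  ring

theorem sq_eq : D.sq c = sq (ic R) D c := by
  have hZ : (fun i j => D.Z c i j) = Z D c := by
    funext i j
    exact (Z_eq D c i j).symm
  have h1 := de_eq (D.Z c)
  have h2 := de_eq D.B
  rw [TK.Dat.sq, sq, ← h1, ← h2, hZ]
  have h3 : TK.mix D.B (D.Z c) = mix D.B (Z D c) := by
    rw [← hZ]
    rfl
  rw [h3]
  simp only [ic]
  push_cast
  ring

theorem op_eq (v : Fin 6 → R) (i : Fin 6) :
    D.op c v i = s6 fun j => op (ic R) D c i j * v j := by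
  have hZ : (fun i j => D.Z c i j) = Z D c := by
    funext i j
    exact (Z_eq D c i j).symm
  have h1 := de_eq (D.Z c)
  have h2 := de_eq D.B
  have h3 : TK.mix D.B (D.Z c) = mix D.B (Z D c) := by
    rw [← hZ]
    rfl
  have h4 : ∀ i j, (D.B.adjugate * D.Z c) i j = mu (ad (ic R) D.B) (Z D c) i j := by
    intro i j
    rw [← hZ, Matrix.mul_apply, Fin.sum_univ_two, ← ad_eq, ← ad_eq]
    rfl
  have h5 : ∀ i j, (D.Z c * D.B.adjugate) i j = mu (Z D c) (ad (ic R) D.B) i j := by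
    intro i j
    rw [← hZ, Matrix.mul_apply, Fin.sum_univ_two, ← ad_eq, ← ad_eq]
    rfl
  have hadZ : (fun i j => (D.Z c).adjugate i j) = ad (ic R) (Z D c) := by
    funext i j
    rw [← ad_eq, hZ]
  have hadB : (fun i j => D.B.adjugate i j) = ad (ic R) D.B := by
    funext i j
    rw [← ad_eq]
  have hlZ : TK.ln (D.Z c).adjugate (D.χ c) v = v 0 * le (ad (ic R) (Z D c)) (χ D c) 0 +
      v 1 * le (ad (ic R) (Z D c)) (χ D c) 1 + v 2 * le (ad (ic R) (Z D c)) (χ D c) 2 +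
      v 3 * le (ad (ic R) (Z D c)) (χ D c) 3 := by
    rw [le_eq, hadZ]
    rfl
  have hlB : TK.ln D.B.adjugate (D.χ c) v = v 0 * le (ad (ic R) D.B) (χ D c) 0 +
      v 1 * le (ad (ic R) D.B) (χ D c) 1 + v 2 * le (ad (ic R) D.B) (χ D c) 2 +
      v 3 * le (ad (ic R) D.B) (χ D c) 3 := by
    rw [le_eq, hadB]
    rfl
  have h2' : D.B.det = de D.B := h2.symm
  rw [hZ] at h1
  fin_cases i
  · simp only [TK.Dat.op, op, s6, h3, h4, h5, ic]
    simp
    ring
  · simp only [TK.Dat.op, op, s6, h3, h4, h5, ic]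
    simp
    ring
  · simp only [TK.Dat.op, op, s6, h3, h4, h5, ic]
    simp
    ring
  · simp only [TK.Dat.op, op, s6, h3, h4, h5, ic]
    simp
    ring
  · simp only [TK.Dat.op, op, s6, h3, ← h1, hlZ]
    simp [ic]
    ring
  · simp only [TK.Dat.op, op, s6, h3, h2', hlB]
    simp [ic]
    ring

theorem ln_one (c : Fin 4 → R) (v : Fin 6 → R) :
    TK.ln 1 c v = v 0 * c 0 + v 1 * c 1 + v 2 * c 2 + v 3 * c 3 := by
  simp [TK.ln]
  ring

theorem ln_adj (M : Matrix (Fin 2) (Fin 2) R) (c : Fin 4 → R) (v : Fin 6 → R) :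
    TK.ln M.adjugate c v = v 0 * le (ad (ic R) fun i j => M i j) c 0 +
      v 1 * le (ad (ic R) fun i j => M i j) c 1 + v 2 * le (ad (ic R) fun i j => M i j) c 2 +
      v 3 * le (ad (ic R) fun i j => M i j) c 3 := by
  have h : (fun i j => M.adjugate i j) = ad (ic R) fun i j => M i j := by
    funext i j
    rw [← ad_eq]
  rw [le_eq, h]

theorem om_eq (v v' : Fin 6 → R) : D.om c m v v' =
    s6 fun j => (s6 fun i => v i * om (ic R) D c m i j) * v' j := by
  have h2 := de_eq D.N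
  simp only [TK.Dat.om, TK.w, TK.Dat.tau, TK.bl, ln_one, ln_adj, ← h2, Fin.sum_univ_six, s6, om,
    omU]
  simp [le, de, ic]
  ring

theorem om_self (i : Fin 6) : om (ic R) D c m i i = 0 := by
  simp [om, ic]

theorem om_anti (i j : Fin 6) : om (ic R) D c m j i = -om (ic R) D c m i j := by
  rcases lt_trichotomy i j with h | h | h
  · simp [om, h, h.not_gt, ic]
  · subst h
    simp [om_self]
  · simp [om, h, h.not_gt, ic]

theorem g_eq (i : Fin 4) (k : Fin 6) : D.g c (Fin.castLE (by decide) i) k =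
    de D.B * (Pi.single (Fin.castLE (by decide) i) 1 : Fin 6 → R) k +
      le (ad (ic R) D.B) (χ D c) i * (Pi.single 4 1 : Fin 6 → R) k := by
  have h2 : D.B.det = de D.B := (de_eq D.B).symm
  have h3 : TK.ln D.B.adjugate (D.χ c) (Pi.single (Fin.castLE (by decide) i) 1) =
      le (ad (ic R) D.B) (χ D c) i := by
    rw [ln_adj]
    fin_cases i <;> simp <;> rfl
  change D.B.det * _ + TK.ln D.B.adjugate (D.χ c) _ * _ = _
  rw [h3, h2]

theorem og_eq (i j : Fin 4) :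
    D.og c m (Fin.castLE (by decide) i) (Fin.castLE (by decide) j) = og (ic R) D c m i j := by
  rw [TK.Dat.og, om_eq]
  simp only [g_eq]
  set a := le (ad (ic R) D.B) (χ D c)
  have h : ∀ (x y z w : R) (p q : Fin 6), (s6 fun l => (s6 fun k =>
      (x * (Pi.single p 1 : Fin 6 → R) k + y * (Pi.single 4 1 : Fin 6 → R) k) *
        om (ic R) D c m k l) * (z * (Pi.single q 1 : Fin 6 → R) l +
          w * (Pi.single 4 1 : Fin 6 → R) l)) =
      x * z * om (ic R) D c m p q + x * w * om (ic R) D c m p 4 + y * z * om (ic R) D c m 4 q +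
        y * w * om (ic R) D c m 4 4 := by
    intro x y z w p q
    fin_cases p <;> fin_cases q <;> simp [s6] <;> ring
  rw [h, om_self, om_anti D c m (Fin.castLE (by decide) j) 4, og]
  ring

theorem cls_eq : D.cls c m = cls (ic R) D c m := by
  have hZ : (fun i j => D.Z c i j) = Z D c := by
    funext i j
    exact (Z_eq D c i j).symm
  have h2 : D.B.det = de D.B := (de_eq D.B).symm
  have h3 : TK.mix D.B (D.Z c) = mix D.B (Z D c) := by
    rw [← hZ]
    rfl
  have h02 : D.og c m 0 2 = og (ic R) D c m 0 2 := og_eq D c m 0 2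
  have h03 : D.og c m 0 3 = og (ic R) D c m 0 3 := og_eq D c m 0 3
  have h12 : D.og c m 1 2 = og (ic R) D c m 1 2 := og_eq D c m 1 2
  have h13 : D.og c m 1 3 = og (ic R) D c m 1 3 := og_eq D c m 1 3
  have h01 : D.og c m 0 1 = og (ic R) D c m 0 1 := og_eq D c m 0 1
  have h23 : D.og c m 2 3 = og (ic R) D c m 2 3 := og_eq D c m 2 3
  have ht : ∀ M : Matrix (Fin 2) (Fin 2) R, (M * D.mat c m).trace = tr (fun i j => M i j)
      ![![og (ic R) D c m 0 2, og (ic R) D c m 0 3],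
        ![og (ic R) D c m 1 2, og (ic R) D c m 1 3]] := by
    intro M
    rw [Matrix.trace_fin_two, Matrix.mul_apply, Matrix.mul_apply, Fin.sum_univ_two,
      Fin.sum_univ_two, TK.Dat.mat, h02, h03, h12, h13]
    simp [tr, mu]
  have hd : (D.mat c m).det = de ![![og (ic R) D c m 0 2, og (ic R) D c m 0 3],
      ![og (ic R) D c m 1 2, og (ic R) D c m 1 3]] := by
    rw [det_fin_two, TK.Dat.mat, h02, h03, h12, h13]
    simp [de]
  rw [TK.Dat.cls, cls, ht, ht, hd, h01, h23, h3, h2, sq_eq, hZ]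
  simp only [ic]
  push_cast
  ring

theorem deg_of {v : Fin 6 → R} (h : ∀ k, deg (ic R) D c m v k = 0) (u : Fin 6 → R) :
    D.om c m v (D.op c u) = D.om c m (D.op c v) u := by
  have h1 : D.om c m v (D.op c u) - D.om c m (D.op c v) u =
      s6 fun k => deg (ic R) D c m v k * u k := by
    rw [om_eq, om_eq]
    simp only [op_eq]
    simp only [deg, s6]
    ring
  rw [← sub_eq_zero, h1]
  simp [s6, h]

theorem surf_of {X : TK.Cub R} {n n' N N' : Fin 3 → R} {e : R} (he : ∀ a : R, e * a = 0 → a = 0)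
    (hn : ∀ i, N i = e * n i) (hn' : ∀ i, N' i = e * n' i) (h0 : gg (ic R) X N N' 0 = 0)
    (h1 : d2 N = d2 N') (h2 : cu (ic R) X N N' = 0) : X.Surf n n' := by
  have hg : ∀ k, gg (ic R) X N N' k = e * X.gg n n' k := by
    intro k
    simp only [gg, tr2, TK.Cub.gg, TK.tr2, hn, hn', ic]
    push_cast
    ring
  refine ⟨he _ ((hg 0).symm.trans h0), ?_, ?_⟩
  · rw [← sub_eq_zero]
    apply he
    apply he
    simp only [d2, hn, hn'] at h1
    simp only [TK.det2]
    linear_combination h1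
  · rw [← sub_eq_zero]
    apply he
    apply he
    apply he
    simp only [cu, hg, d2, a2, hn, hn', ic] at h2
    push_cast at h2
    simp only [TK.det2, TK.adj2]
    linear_combination h2

end

/-! ### Naturality -/

/-- maps which respect the operations -/
structure Hm {A A' : Type} [Add A] [Sub A] [Mul A] [Add A'] [Sub A'] [Mul A'] (κ : ℤ → A)
    (κ' : ℤ → A') (φ : A → A') : Prop where
  c : ∀ a, φ (κ a) = κ' a
  add : ∀ a b, φ (a + b) = φ a + φ b
  sub : ∀ a b, φ (a - b) = φ a - φ b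
  mul : ∀ a b, φ (a * b) = φ a * φ b

section

variable {A A' : Type} [Add A] [Sub A] [Mul A] [Add A'] [Sub A'] [Mul A'] {κ : ℤ → A}
  {κ' : ℤ → A'} {φ : A → A'} (h : Hm κ κ' φ)

include h

theorem Hm.mix (B Z : Fin 2 → Fin 2 → A) :
    φ (mix B Z) = G.mix (fun i j => φ (B i j)) fun i j => φ (Z i j) := by
  simp only [G.mix, h.add, h.sub, h.mul]

theorem Hm.de (M : Fin 2 → Fin 2 → A) : φ (de M) = G.de fun i j => φ (M i j) := by
  simp only [G.de, h.sub, h.mul]

theorem Hm.ad (M : Fin 2 → Fin 2 → A) :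
    (fun i j => φ (ad κ M i j)) = G.ad κ' fun i j => φ (M i j) := by
  funext i j
  fin_cases i <;> fin_cases j <;> simp [G.ad, h.sub, h.c]

theorem Hm.mu (M N : Fin 2 → Fin 2 → A) :
    (fun i j => φ (mu M N i j)) = G.mu (fun i j => φ (M i j)) fun i j => φ (N i j) := by
  funext i j
  simp only [G.mu, h.add, h.mul]

theorem Hm.tr (M N : Fin 2 → Fin 2 → A) :
    φ (tr M N) = G.tr (fun i j => φ (M i j)) fun i j => φ (N i j) := by
  simp only [G.tr, G.mu, h.add, h.mul]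

theorem Hm.le (M : Fin 2 → Fin 2 → A) (c : Fin 4 → A) :
    (fun i => φ (le M c i)) = G.le (fun i j => φ (M i j)) fun i => φ (c i) := by
  funext i
  fin_cases i <;> simp [G.le, h.add, h.mul]

variable (D : TK.Dat A) (c : Fin 2 → A) (m : A)

theorem Hm.Z : (fun i j => φ (Z D c i j)) = G.Z (D.map φ) fun i => φ (c i) := by
  funext i j
  fin_cases i <;> fin_cases j <;> simp [G.Z, h.sub, h.mul, TK.Dat.map]

theorem Hm.χ : (fun i => φ (χ D c i)) = G.χ (D.map φ) fun i => φ (c i) := by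
  funext i
  simp [G.χ, h.sub, h.mul, TK.Dat.map]

theorem Hm.mx : φ (G.mix D.B (G.Z D c)) =
    G.mix (D.map φ).B (G.Z (D.map φ) fun i => φ (c i)) := by
  rw [h.mix D.B (G.Z D c), h.Z D c]
  rfl

theorem Hm.dB : φ (G.de D.B) = G.de (D.map φ).B := h.de D.B

theorem Hm.dZ : φ (G.de (G.Z D c)) = G.de (G.Z (D.map φ) fun i => φ (c i)) := by
  rw [h.de (G.Z D c), h.Z D c]

theorem Hm.adB : (fun i j => φ (G.ad κ D.B i j)) = G.ad κ' (D.map φ).B := h.ad D.B

theorem Hm.leB (i : Fin 4) : φ (G.le (G.ad κ D.B) (G.χ D c) i) =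
    G.le (G.ad κ' (D.map φ).B) (G.χ (D.map φ) fun i => φ (c i)) i := by
  have h3 := congrFun (h.le (G.ad κ D.B) (G.χ D c)) i
  rw [h.adB D, h.χ D c] at h3
  exact h3

theorem Hm.sq : φ (sq κ D c) = G.sq κ' (D.map φ) fun i => φ (c i) := by
  rw [G.sq, h.sub, h.mul, h.mul, h.mul, h.c, h.mx, h.dB, h.dZ]
  rfl

theorem Hm.op (i j : Fin 6) : φ (op κ D c i j) = G.op κ' (D.map φ) (fun i => φ (c i)) i j := by
  have h2 := h.Z D c
  have hP : ∀ i j, φ (G.mu (G.ad κ D.B) (G.Z D c) i j) =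
      G.mu (G.ad κ' (D.map φ).B) (G.Z (D.map φ) fun i => φ (c i)) i j := by
    intro i j
    have h3 := congrFun (congrFun (h.mu (G.ad κ D.B) (G.Z D c)) i) j
    rw [h.adB D, h2] at h3
    exact h3
  have hP' : ∀ i j, φ (G.mu (G.Z D c) (G.ad κ D.B) i j) =
      G.mu (G.Z (D.map φ) fun i => φ (c i)) (G.ad κ' (D.map φ).B) i j := by
    intro i j
    have h3 := congrFun (congrFun (h.mu (G.Z D c) (G.ad κ D.B)) i) j
    rw [h.adB D, h2] at h3
    exact h3
  have ha : ∀ i, φ (G.le (G.ad κ (G.Z D c)) (G.χ D c) i) =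
      G.le (G.ad κ' (G.Z (D.map φ) fun i => φ (c i))) (G.χ (D.map φ) fun i => φ (c i)) i := by
    intro i
    have h3 := congrFun (h.le (G.ad κ (G.Z D c)) (G.χ D c)) i
    rw [h.ad (G.Z D c), h2, h.χ D c] at h3
    exact h3
  have hm := h.mx D c
  have hdZ := h.dZ D c
  have hdB := h.dB D
  have hb := h.leB D c
  fin_cases i <;> fin_cases j <;>
    simp [G.op, h.sub, h.mul, h.c, hP, hP', ha, hb, hm, hdZ, hdB]

theorem Hm.om (i j : Fin 6) :
    φ (om κ D c m i j) = G.om κ' (D.map φ) (fun i => φ (c i)) (φ m) i j := by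
  have hn : ∀ i, φ (G.le (G.ad κ D.N) D.γ i) = G.le (G.ad κ' (D.map φ).N) (D.map φ).γ i := by
    intro i
    have h3 := congrFun (h.le (G.ad κ D.N) D.γ) i
    rw [h.ad D.N] at h3
    exact h3
  have hdN : φ (G.de D.N) = G.de (D.map φ).N := h.de D.N
  have hU : ∀ i j, φ (omU κ D c m i j) = omU κ' (D.map φ) (fun i => φ (c i)) (φ m) i j := by
    intro i j
    have ht : ∀ i j, (D.map φ).t i j = φ (D.t i j) := fun _ _ => rfl
    have hN : ∀ i j, (D.map φ).N i j = φ (D.N i j) := fun _ _ => rfl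
    have hγ : ∀ i, (D.map φ).γ i = φ (D.γ i) := fun _ => rfl
    fin_cases i <;> fin_cases j <;>
      simp [omU, h.add, h.sub, h.mul, h.c, hn, hdN, ht, hN, hγ]
  rw [G.om, G.om]
  split_ifs
  · exact hU _ _
  · rw [h.sub, h.c, hU]
  · exact h.c 0

theorem Hm.og (i j : Fin 4) :
    φ (og κ D c m i j) = G.og κ' (D.map φ) (fun i => φ (c i)) (φ m) i j := by
  simp only [G.og, h.add, h.sub, h.mul, h.leB D c, h.dB D, h.om D c m]

theorem Hm.cls : φ (cls κ D c m) = G.cls κ' (D.map φ) (fun i => φ (c i)) (φ m) := by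
  have hR : (fun i j => φ ((![![G.og κ D c m 0 2, G.og κ D c m 0 3],
      ![G.og κ D c m 1 2, G.og κ D c m 1 3]] : Fin 2 → Fin 2 → A) i j)) =
      ![![G.og κ' (D.map φ) (fun i => φ (c i)) (φ m) 0 2,
        G.og κ' (D.map φ) (fun i => φ (c i)) (φ m) 0 3],
      ![G.og κ' (D.map φ) (fun i => φ (c i)) (φ m) 1 2,
        G.og κ' (D.map φ) (fun i => φ (c i)) (φ m) 1 3]] := by
    funext i j
    fin_cases i <;> fin_cases j <;> simp [h.og]
  set R : Fin 2 → Fin 2 → A := ![![G.og κ D c m 0 2, G.og κ D c m 0 3],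
    ![G.og κ D c m 1 2, G.og κ D c m 1 3]] with hRdef
  have h1 : φ (G.tr D.B R) = G.tr (D.map φ).B (fun i j => φ (R i j)) := h.tr D.B R
  have h2 : φ (G.tr (G.Z D c) R) = G.tr (G.Z (D.map φ) fun i => φ (c i))
      (fun i j => φ (R i j)) := by
    rw [h.tr (G.Z D c) R, h.Z D c]
  have h3 : φ (G.de R) = G.de (fun i j => φ (R i j)) := h.de R
  simp only [G.cls, ← hRdef, h.sub, h.mul, h.c, h.mx D c, h.dB D, h.sq D c, h1, h2, h3, hR,
    h.og D c m]

theorem Hm.s6 (f : Fin 6 → A) : φ (s6 f) = G.s6 fun i => φ (f i) := by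
  simp only [G.s6, h.add]

theorem Hm.deg (v : Fin 6 → A) (k : Fin 6) : φ (deg κ D c m v k) =
    G.deg κ' (D.map φ) (fun i => φ (c i)) (φ m) (fun i => φ (v i)) k := by
  simp only [G.deg, h.sub, h.mul, h.s6, h.om D c m, h.op D c]

theorem Hm.tr2 (n a : Fin 3 → A) :
    φ (tr2 κ n a) = G.tr2 κ' (fun i => φ (n i)) fun i => φ (a i) := by
  simp only [G.tr2, h.add, h.mul, h.c]

theorem Hm.gg (X : TK.Cub A) (n n' : Fin 3 → A) (k : Fin 6) :
    φ (gg κ X n n' k) = G.gg κ' (X.map φ) (fun i => φ (n i)) (fun i => φ (n' i)) k := by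
  simp only [G.gg, h.sub, h.tr2, TK.Cub.map]

theorem Hm.d2 (n : Fin 3 → A) : φ (d2 n) = G.d2 fun i => φ (n i) := by
  simp only [G.d2, h.sub, h.mul]

theorem Hm.a2 (n : Fin 3 → A) (x y : A) :
    φ (a2 κ n x y) = G.a2 κ' (fun i => φ (n i)) (φ x) (φ y) := by
  simp only [G.a2, h.add, h.sub, h.mul, h.c]

theorem Hm.cu (X : TK.Cub A) (n n' : Fin 3 → A) :
    φ (cu κ X n n') = G.cu κ' (X.map φ) (fun i => φ (n i)) fun i => φ (n' i) := by
  simp only [G.cu, h.add, h.sub, h.mul, h.c, h.gg, h.d2, h.a2]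

end

end G

end Pool.Agent.GSV
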