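import Pool.Agent.GSV.Form

/-!
# GSV: fractions, and the tests for the two K3 surfaces

`Fr d`: fractions `n / d ^ k` of expressions in `s`, `t`, `m`. `Fr.ev`: the value in a field.
`zero_of`, `ne_of`: tests. `surf_of`, `degen_of`, `sq_of`, `cls_of`: the equations of the surfaces.
-/

set_option autoImplicit false

namespace Pool.Agent.GSV

open X3

/-- fractions `n / d ^ k` -/
structure Fr (d : X3) where
  /-- the numerator -/
  n : X3
  /-- the exponent of the denominator -/
  k : ℕ

/-- the power -/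
def pw (d : X3) : ℕ → X3
  | 0 => X3.c 1
  | k + 1 => X3.mul (pw d k) d

namespace Fr

variable {d : X3}

/-- the numerator for the exponent `k + i` -/
def lift (a : Fr d) : ℕ → X3
  | 0 => a.n
  | i + 1 => X3.mul a.n (pw d (i + 1))

/-- the integers -/
def ic (d : X3) (a : ℤ) : Fr d := ⟨X3.c a, 0⟩

instance : Add (Fr d) where
  add a b := bif Nat.ble a.k b.k then ⟨X3.add (a.lift (b.k - a.k)) b.n, b.k⟩
    else ⟨X3.add a.n (b.lift (a.k - b.k)), a.k⟩

instance : Sub (Fr d) where
  sub a b := bif Nat.ble a.k b.k then ⟨X3.sub (a.lift (b.k - a.k)) b.n, b.k⟩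
    else ⟨X3.sub a.n (b.lift (a.k - b.k)), a.k⟩

instance : Mul (Fr d) where
  mul a b := ⟨X3.mul a.n b.n, a.k + b.k⟩

section

variable {M : Type} [Field M] (x y z : M)

/-- the value -/
def ev (a : Fr d) : M := X3.ev x y z a.n / X3.ev x y z d ^ a.k

theorem ev_pw (k : ℕ) : X3.ev x y z (pw d k) = X3.ev x y z d ^ k := by
  induction k with
  | zero => simp [pw, X3.ev]
  | succ k ih => rw [pw, X3.ev, ih, pow_succ]

theorem ev_lift (a : Fr d) (i : ℕ) :
    X3.ev x y z (a.lift i) = X3.ev x y z a.n * X3.ev x y z d ^ i := by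
  cases i with
  | zero => simp [lift]
  | succ i => rw [lift, X3.ev, ev_pw]

variable {x y z}

theorem lift_div (hd : X3.ev x y z d ≠ 0) (a : Fr d) {k : ℕ} (h : a.k ≤ k) :
    X3.ev x y z (a.lift (k - a.k)) / X3.ev x y z d ^ k = a.ev x y z := by
  obtain ⟨i, rfl⟩ := Nat.exists_eq_add_of_le h
  rw [Nat.add_sub_cancel_left, ev_lift, ev, pow_add, mul_div_mul_right _ _ (pow_ne_zero _ hd)]

/-- The value respects the operations. -/
theorem hm (hd : X3.ev x y z d ≠ 0) :
    G.Hm (ic d) (fun a : ℤ => (a : M)) (fun a : Fr d => a.ev x y z) where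
  c a := by simp [ic, ev, X3.ev]
  add a b := by
    change ev x y z (bif Nat.ble a.k b.k then _ else _) = _
    cases h : Nat.ble a.k b.k with
    | true =>
      rw [cond_true, ← lift_div hd a (Nat.le_of_ble_eq_true h), ev, ev, X3.ev, add_div]
    | false =>
      have h1 : b.k ≤ a.k := by
        by_contra h2
        rw [Nat.ble_eq_true_of_le (by omega)] at h
        exact Bool.noConfusion h
      rw [cond_false, ← lift_div hd b h1, ev, ev, X3.ev, add_div]
  sub a b := by
    change ev x y z (bif Nat.ble a.k b.k then _ else _) = _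
    cases h : Nat.ble a.k b.k with
    | true =>
      rw [cond_true, ← lift_div hd a (Nat.le_of_ble_eq_true h), ev, ev, X3.ev, sub_div]
    | false =>
      have h1 : b.k ≤ a.k := by
        by_contra h2
        rw [Nat.ble_eq_true_of_le (by omega)] at h
        exact Bool.noConfusion h
      rw [cond_false, ← lift_div hd b h1, ev, ev, X3.ev, sub_div]
  mul a b := by
    change X3.ev x y z (X3.mul a.n b.n) / X3.ev x y z d ^ (a.k + b.k) = _
    rw [X3.ev, pow_add, ev, ev, div_mul_div_comm]

/-- the element satisfies the cubic equation -/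
def Root (F : List (List (List ℤ))) (x y z : M) : Prop :=
  z ^ 3 = vx x y (F.getD 0 []) + vx x y (F.getD 1 []) * z + vx x y (F.getD 2 []) * z ^ 2

theorem zero_of {B D : ℕ} {F : List (List (List ℤ))} {a : Fr d} (h : chk B D F a.n = true)
    (hz : Root F x y z) : a.ev x y z = 0 := by
  rw [ev, X3.zero h x y z hz, zero_div]

end

end Fr

/-! ### Maps of rings -/

namespace X3

theorem hy_map' {R R' : Type} [CommRing R] [CommRing R'] (φ : R →+* R') (y : R) (l : List ℤ) :
    φ (hy (fun a : ℤ => (a : R)) (· + ·) (· * ·) y l) =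
      hy (fun a : ℤ => (a : R')) (· + ·) (· * ·) (φ y) l := by
  rw [hy_map]
  simp only [map_intCast]

theorem vx_map {R R' : Type} [CommRing R] [CommRing R'] (φ : R →+* R') (x y : R)
    (T : List (List ℤ)) : φ (vx x y T) = vx (φ x) (φ y) T := by
  unfold vx
  rw [hx_map]
  simp only [map_intCast]

theorem ev_map {R R' : Type} [CommRing R] [CommRing R'] (φ : R →+* R') (x y z : R) (e : X3) :
    φ (ev x y z e) = ev (φ x) (φ y) (φ z) e := by
  induction e with
  | c a => simp [ev]
  | s => rfl
  | t => rfl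
  | m => rfl
  | tb T => simp only [ev, map_add, map_mul, map_pow, vx_map]
  | add a b iha ihb => simp only [ev, map_add, iha, ihb]
  | sub a b iha ihb => simp only [ev, map_sub, iha, ihb]
  | mul a b iha ihb => simp only [ev, map_mul, iha, ihb]

/-- the expression does not contain `m` -/
def nom : X3 → Bool
  | c _ => true
  | s => true
  | t => true
  | m => false
  | tb T => Nat.ble T.length 1
  | add a b => nom a && nom b
  | sub a b => nom a && nom b
  | mul a b => nom a && nom b

theorem ev_nom {R : Type} [CommRing R] {e : X3} (h : nom e = true) (x y z z' : R) :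
    ev x y z e = ev x y z' e := by
  induction e with
  | c a => rfl
  | s => rfl
  | t => rfl
  | m => exact absurd h (by simp [nom])
  | tb T =>
    have h1 : T.length ≤ 1 := Nat.le_of_ble_eq_true h
    have h2 : T.getD 1 [] = [] := List.getD_eq_default _ _ h1
    have h3 : T.getD 2 [] = [] := List.getD_eq_default _ _ (by omega)
    have h4 : ∀ z : R, ev x y z (tb T) = vx x y (T.getD 0 []) := by
      intro z
      change vx x y (T.getD 0 []) + vx x y (T.getD 1 []) * z + vx x y (T.getD 2 []) * z ^ 2 = _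
      rw [h2, h3]
      have h5 : vx x y ([] : List (List ℤ)) = 0 := by simp [vx, hx]
      rw [h5]
      ring
    rw [h4, h4]
  | add a b iha ihb =>
    rw [nom, Bool.and_eq_true] at h
    rw [ev, ev, iha h.1, ihb h.2]
  | sub a b iha ihb =>
    rw [nom, Bool.and_eq_true] at h
    rw [ev, ev, iha h.1, ihb h.2]
  | mul a b iha ihb =>
    rw [nom, Bool.and_eq_true] at h
    rw [ev, ev, iha h.1, ihb h.2]

/-- the components in a commutative ring -/
theorem cp_ring {R R' : Type} [CommRing R] [CommRing R'] (φ : R →+* R') (x y : R)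
    (F : List (List (List ℤ))) (e : X3) :
    cp (fun a : ℤ => (a : R')) (-1) (φ x) (φ y) F e =
      (φ (cp (fun a : ℤ => (a : R)) (-1) x y F e).1, φ (cp (fun a : ℤ => (a : R)) (-1) x y F e).2.1,
        φ (cp (fun a : ℤ => (a : R)) (-1) x y F e).2.2) := by
  have h := cp_map φ (fun a : ℤ => (a : R)) (-1) x y F e
  simp only [map_intCast, map_neg, map_one] at h
  exact h

/-- the test for `ne_of` -/
def nz (a b : ℤ) (F : List (List (List ℤ))) (e : X3) : Bool :=
  atI a b F e fun p q r => !(isz p && isz q && isz r)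

open MvPolynomial in
/-- the value is not zero -/
theorem ne_of {M : Type} [Field M] [Algebra TK.K M] {z : M} {F : List (List (List ℤ))}
    (hz : Fr.Root F (algebraMap TK.K M (TK.var 0)) (algebraMap TK.K M (TK.var 1)) z)
    (hi : ∀ a b c : TK.K, algebraMap TK.K M a + algebraMap TK.K M b * z +
      algebraMap TK.K M c * z ^ 2 = 0 → a = 0 ∧ b = 0 ∧ c = 0) {a b : ℤ} {e : X3}
    (h : nz a b F e = true) :
    ev (algebraMap TK.K M (TK.var 0)) (algebraMap TK.K M (TK.var 1)) z e ≠ 0 := by
  unfold nz at h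
  rw [atI_eq] at h
  intro h0
  rw [ev_cp _ _ _ F hz] at h0
  rw [cp_ring (algebraMap TK.K M)] at h0
  obtain ⟨h1, h2, h3⟩ := hi _ _ _ h0
  have hK := cp_ring (algebraMap (MvPolynomial (Fin 2) ℂ) TK.K) (X 0) (X 1) F e
  change cp _ (-1) (TK.var 0) (TK.var 1) F e = _ at hK
  rw [hK] at h1 h2 h3
  have hinj := IsFractionRing.injective (MvPolynomial (Fin 2) ℂ) TK.K
  have g1 := (map_eq_zero_iff _ hinj).1 h1
  have g2 := (map_eq_zero_iff _ hinj).1 h2
  have g3 := (map_eq_zero_iff _ hinj).1 h3
  have hC := cp_ring (eval ![(a : ℂ), (b : ℂ)]) (X 0) (X 1) F e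
  rw [g1, g2, g3] at hC
  simp only [map_zero, eval_X, Matrix.cons_val_zero, Matrix.cons_val_one] at hC
  have hZ := cp_ring (Int.castRingHom ℂ) a b F e
  simp only [eq_intCast] at hZ
  rw [hC] at hZ
  have k1 := congrArg Prod.fst hZ
  have k2 := congrArg (fun p => p.2.1) hZ
  have k3 := congrArg (fun p => p.2.2) hZ
  simp only at k1 k2 k3
  have l1 : (cp (fun a : ℤ => a) (-1) a b F e).1 = 0 := by exact_mod_cast k1.symm
  have l2 : (cp (fun a : ℤ => a) (-1) a b F e).2.1 = 0 := by exact_mod_cast k2.symm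
  have l3 : (cp (fun a : ℤ => a) (-1) a b F e).2.2 = 0 := by exact_mod_cast k3.symm
  rw [l1, l2, l3] at h
  exact absurd h (by decide)

end X3

end Pool.Agent.GSV
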