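import Pool.Agent.GSV.XD4
import Pool.Agent.GSV.Q4E
import Pool.Agent.GSV.ChainX

/-!
# GSV: the example, the quaternion algebras of the two K3 surfaces are isomorphic
-/

set_option autoImplicit false
set_option maxRecDepth 100000

noncomputable section

namespace Pool.Agent.GSV.Q4

open X3
open scoped Quaternion

theorem valK_D2 : valK D2 = 4 + 8 * TK.var 1 + 8 * TK.var 0 - 12 * TK.var 0 ^ 2 := by
  simp only [valK, D2, Fr.ev, X3.ev, vx, hx, hy, pow_zero, div_one, List.getD_cons_zero,
    List.getD_cons_succ, List.getD_nil]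
  simp
  ring

theorem disc : (GSX.tK - GSX.sK ^ 2) * valK D2 =
    ((XC X).to.map (algebraMap ℂ TK.K)).c GSX.sK GSX.tK 0 1 ^ 2 -
      ((XC X).to.map (algebraMap ℂ TK.K)).c GSX.sK GSX.tK 0 0 *
        ((XC X).to.map (algebraMap ℂ TK.K)).c GSX.sK GSX.tK 0 2 := by
  have h0 : GSX.sK = TK.var 0 := rfl
  have h1 : GSX.tK = TK.var 1 := rfl
  rw [valK_D2, X_to]
  simp only [h0, h1, GSX.Cub.c, GSX.Cub.map, GSK4.X, Matrix.cons_val_zero, Matrix.cons_val_one,
    Matrix.cons_val, map_neg, map_zero, map_ofNat, eq_intCast, Int.cast_zero, Int.cast_neg,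
    Int.cast_ofNat]
  ring

theorem valK_D2_ne : valK D2 ≠ 0 := by
  have h := vxK_ne (T := [[4, 8], [8], [-12]]) 0 0 (by decide)
  rw [valK_D2]
  intro h0
  apply h
  simp [vx, hx, hy]
  linear_combination h0

section

variable {M : Type} [Field M] [Algebra TK.K M] {z : M} (hM : Module.finrank TK.K M = 3)
  (hzK : z ∉ Set.range (algebraMap TK.K M))
  (hz : Fr.Root F (algebraMap TK.K M (TK.var 0)) (algebraMap TK.K M (TK.var 1)) z)

include hM hzK hz

theorem iso : Nonempty (ℍ[M, -TK.det2 (fun i => val M z (n i)), val M z (n 0) * val M z (n' 0)]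
    ≃ₐ[M] ℍ[M, ((DC D).map (TK.cc M)).sq (fun i => algebraMap TK.K M (valK (c i))),
      ((DC D).map (TK.cc M)).cls (fun i => algebraMap TK.K M (valK (c i))) (val M z m)]) := by
  have hd := dM_ne M z
  have h1 := (cub_gen hM hzK hz).chain nondeg hM disc valK_D2_ne
  have h2 := quat hM hzK hz
  have hc : (fun i => algebraMap TK.K M (valK (c i))) = fun i => val M z (c i) := by
    funext i
    exact algebraMap_valK (by fin_cases i <;> decide) (by decide)
  have hD : algebraMap TK.K M (valK D2) = val M z D2 := algebraMap_valK (by decide) (by decide)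
  have hn : val M z (Fr.ic d 0 - G.d2 n) = -TK.det2 (fun i => val M z (n i)) := by
    have hm := Fr.hm hd
    have e1 : val M z (Fr.ic d 0 - G.d2 n) = val M z (Fr.ic d 0) - val M z (G.d2 n) := hm.sub _ _
    have e2 : val M z (Fr.ic d 0) = ((0 : ℤ) : M) := hm.c 0
    have e3 : val M z (G.d2 n) = G.d2 fun i => val M z (n i) := hm.d2 n
    rw [e1, e2, e3, Int.cast_zero, zero_sub, G.d2, TK.det2]
    ring
  rw [← hD, hn] at h2
  rw [hc, sq_of hz hd t3, cls_of hz hd t5]
  exact Quat.trans' h1 h2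

end

end Pool.Agent.GSV.Q4
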