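import Pool.Agent.GSW.Zt
import Pool.Agent.GSW.Fast

/-!
# GSV: a zero test for polynomials in `s`, `t`, `m` modulo a monic cubic polynomial in `m`

`X3`: expressions in `s`, `t`, `m` with integer constants and tables of coefficients. `X3.zero`: if
the test `chk B D F e` is true, then the value of `e` is `0` in every commutative ring, for all
values of `s`, `t` and all `m` with `m ^ 3 = F_0 + F_1 m + F_2 m ^ 2`. The test computes the three
components of `e` at the point `s = B`, `t = B ^ D`, and bounds for the coefficients and the degrees.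
-/

set_option autoImplicit false

namespace Pool.Agent.GSV

open Polynomial
open GSW.E (Le Le.add Le.sub Le.mul Le.x Le.y Le.zero Le.one Le.const natDegree_lt)

/-- Expressions in `s`, `t`, `m`. -/
inductive X3 : Type
  | c (a : ℤ)
  | s
  | t
  | m
  /-- a table: for every power of `m` (at most 2) and every power of `s` the coefficients of the
  powers of `t` -/
  | tb (T : List (List (List ℤ)))
  | add (a b : X3)
  | sub (a b : X3)
  | mul (a b : X3)

namespace X3

section

variable {A : Type} (κ : ℤ → A) (ad mu : A → A → A) (sg x y : A)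

/-- the value of a polynomial in `t` -/
def hy : List ℤ → A
  | [] => κ 0
  | a :: l => ad (κ a) (mu y (hy l))

/-- the value of a polynomial in `s`, `t` -/
def hx : List (List ℤ) → A
  | [] => κ 0
  | r :: T => ad (hy κ ad mu y r) (mu x (hx T))

/-- the product modulo the polynomial -/
def m3 (f p q : A × A × A) : A × A × A :=
  (ad (mu p.1 q.1) (mu (ad (ad (mu p.2.1 q.2.2) (mu p.2.2 q.2.1)) (mu (mu p.2.2 q.2.2) f.2.2)) f.1),
    ad (ad (ad (mu p.1 q.2.1) (mu p.2.1 q.1)) (mu (mu p.2.2 q.2.2) f.1))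
      (mu (ad (ad (mu p.2.1 q.2.2) (mu p.2.2 q.2.1)) (mu (mu p.2.2 q.2.2) f.2.2)) f.2.1),
    ad (ad (ad (ad (mu p.1 q.2.2) (mu p.2.1 q.2.1)) (mu p.2.2 q.1)) (mu (mu p.2.2 q.2.2) f.2.1))
      (mu (ad (ad (mu p.2.1 q.2.2) (mu p.2.2 q.2.1)) (mu (mu p.2.2 q.2.2) f.2.2)) f.2.2))

/-- the three components -/
def tri (f : A × A × A) : X3 → A × A × A
  | c a => (κ a, κ 0, κ 0)
  | s => (x, κ 0, κ 0)
  | t => (y, κ 0, κ 0)
  | m => (κ 0, κ 1, κ 0)
  | tb T => (hx κ ad mu x y (T.getD 0 []), hx κ ad mu x y (T.getD 1 []),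
      hx κ ad mu x y (T.getD 2 []))
  | add a b => (ad (tri f a).1 (tri f b).1, ad (tri f a).2.1 (tri f b).2.1,
      ad (tri f a).2.2 (tri f b).2.2)
  | sub a b => (ad (tri f a).1 (mu sg (tri f b).1), ad (tri f a).2.1 (mu sg (tri f b).2.1),
      ad (tri f a).2.2 (mu sg (tri f b).2.2))
  | mul a b => m3 ad mu f (tri f a) (tri f b)

variable (fc : A → (A → Bool) → Bool)

/-- the value of a polynomial in `t`, with forced values -/
def ry : List ℤ → (A → Bool) → Bool
  | [], k => k (κ 0)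
  | a :: l, k => ry l fun h => fc (ad (κ a) (mu y h)) k

/-- the value of a polynomial in `s`, `t`, with forced values -/
def rx : List (List ℤ) → (A → Bool) → Bool
  | [], k => k (κ 0)
  | r :: T, k => rx T fun h => ry κ ad mu y fc r fun g => fc (ad g (mu x h)) k

/-- the three components, with forced values -/
def run (f0 f1 f2 : A) : X3 → (A → A → A → Bool) → Bool
  | c a, k => k (κ a) (κ 0) (κ 0)
  | s, k => k x (κ 0) (κ 0)
  | t, k => k y (κ 0) (κ 0)
  | m, k => k (κ 0) (κ 1) (κ 0)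
  | tb T, k => rx κ ad mu x y fc (T.getD 0 []) fun a => rx κ ad mu x y fc (T.getD 1 []) fun b =>
      rx κ ad mu x y fc (T.getD 2 []) fun d => k a b d
  | add a b, k => run f0 f1 f2 a fun p0 p1 p2 => run f0 f1 f2 b fun q0 q1 q2 =>
      fc (ad p0 q0) fun a => fc (ad p1 q1) fun b => fc (ad p2 q2) fun d => k a b d
  | sub a b, k => run f0 f1 f2 a fun p0 p1 p2 => run f0 f1 f2 b fun q0 q1 q2 =>
      fc (ad p0 (mu sg q0)) fun a => fc (ad p1 (mu sg q1)) fun b => fc (ad p2 (mu sg q2)) fun d =>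
        k a b d
  | mul a b, k => run f0 f1 f2 a fun p0 p1 p2 => run f0 f1 f2 b fun q0 q1 q2 =>
      fc (mu p2 q2) fun u => fc (ad (ad (mu p1 q2) (mu p2 q1)) (mu u f2)) fun w =>
        fc (ad (mu p0 q0) (mu w f0)) fun a =>
          fc (ad (ad (ad (mu p0 q1) (mu p1 q0)) (mu u f0)) (mu w f1)) fun b =>
            fc (ad (ad (ad (ad (mu p0 q2) (mu p1 q1)) (mu p2 q0)) (mu u f1)) (mu w f2)) fun d =>
              k a b d

variable {κ ad mu sg x y fc}

theorem ry_eq (h : ∀ a k, fc a k = k a) (l : List ℤ) (k : A → Bool) :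
    ry κ ad mu y fc l k = k (hy κ ad mu y l) := by
  induction l generalizing k with
  | nil => rfl
  | cons a l ih => rw [ry, ih, h, hy]

theorem rx_eq (h : ∀ a k, fc a k = k a) (l : List (List ℤ)) (k : A → Bool) :
    rx κ ad mu x y fc l k = k (hx κ ad mu x y l) := by
  induction l generalizing k with
  | nil => rfl
  | cons a l ih => rw [rx, ih, ry_eq h, h, hx]

theorem run_eq (h : ∀ a k, fc a k = k a) (f0 f1 f2 : A) (e : X3) (k : A → A → A → Bool) :
    run κ ad mu sg x y fc f0 f1 f2 e k = k (tri κ ad mu sg x y (f0, f1, f2) e).1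
      (tri κ ad mu sg x y (f0, f1, f2) e).2.1 (tri κ ad mu sg x y (f0, f1, f2) e).2.2 := by
  induction e generalizing k with
  | c a => rfl
  | s => rfl
  | t => rfl
  | m => rfl
  | tb T => rw [run, rx_eq h, rx_eq h, rx_eq h]; rfl
  | add a b iha ihb => rw [run, iha, ihb, h, h, h]; rfl
  | sub a b iha ihb => rw [run, iha, ihb, h, h, h]; rfl
  | mul a b iha ihb => rw [run, iha, ihb, h, h, h, h, h]; rfl

end

/-! ### Values in rings -/

/-- the value of a polynomial in `s`, `t` -/
def vx {R : Type} [CommRing R] (x y : R) (T : List (List ℤ)) : R :=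
  hx (fun a : ℤ => (a : R)) (· + ·) (· * ·) x y T

/-- the value in a commutative ring -/
def ev {R : Type} [CommRing R] (x y z : R) : X3 → R
  | c a => (a : R)
  | s => x
  | t => y
  | m => z
  | tb T => vx x y (T.getD 0 []) + vx x y (T.getD 1 []) * z + vx x y (T.getD 2 []) * z ^ 2
  | add a b => ev x y z a + ev x y z b
  | sub a b => ev x y z a - ev x y z b
  | mul a b => ev x y z a * ev x y z b

/-- the components in a commutative semiring -/
def cp {A : Type} [CommSemiring A] (κ : ℤ → A) (sg x y : A) (F : List (List (List ℤ))) :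
    X3 → A × A × A :=
  tri κ (· + ·) (· * ·) sg x y (hx κ (· + ·) (· * ·) x y (F.getD 0 []),
    hx κ (· + ·) (· * ·) x y (F.getD 1 []), hx κ (· + ·) (· * ·) x y (F.getD 2 []))

theorem ev_cp {R : Type} [CommRing R] (x y z : R) (F : List (List (List ℤ)))
    (hz : z ^ 3 = vx x y (F.getD 0 []) + vx x y (F.getD 1 []) * z + vx x y (F.getD 2 []) * z ^ 2)
    (e : X3) :
    ev x y z e = (cp (fun a : ℤ => (a : R)) (-1) x y F e).1 +
      (cp (fun a : ℤ => (a : R)) (-1) x y F e).2.1 * z +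
      (cp (fun a : ℤ => (a : R)) (-1) x y F e).2.2 * z ^ 2 := by
  induction e with
  | c a => simp [ev, cp, tri]
  | s => simp [ev, cp, tri]
  | t => simp [ev, cp, tri]
  | m => simp [ev, cp, tri]
  | tb T => rfl
  | add a b iha ihb =>
    change ev x y z a + ev x y z b = _
    rw [iha, ihb]
    simp only [cp, tri]
    ring
  | sub a b iha ihb =>
    change ev x y z a - ev x y z b = _
    rw [iha, ihb]
    simp only [cp, tri]
    ring
  | mul a b iha ihb =>
    change ev x y z a * ev x y z b = _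
    rw [iha, ihb]
    set p := cp (fun a : ℤ => (a : R)) (-1) x y F a
    set q := cp (fun a : ℤ => (a : R)) (-1) x y F b
    change _ = (m3 (· + ·) (· * ·) (vx x y (F.getD 0 []), vx x y (F.getD 1 []),
      vx x y (F.getD 2 [])) p q).1 + (m3 (· + ·) (· * ·) (vx x y (F.getD 0 []),
      vx x y (F.getD 1 []), vx x y (F.getD 2 [])) p q).2.1 * z +
      (m3 (· + ·) (· * ·) (vx x y (F.getD 0 []), vx x y (F.getD 1 []),
      vx x y (F.getD 2 [])) p q).2.2 * z ^ 2
    simp only [m3]
    linear_combination (p.2.1 * q.2.2 + p.2.2 * q.2.1 + p.2.2 * q.2.2 * z +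
      p.2.2 * q.2.2 * vx x y (F.getD 2 [])) * hz

section

variable {A A' : Type} [CommSemiring A] [CommSemiring A'] (φ : A →+* A') (κ : ℤ → A) (sg x y : A)

theorem hy_map (l : List ℤ) : φ (hy κ (· + ·) (· * ·) y l) =
    hy (fun a => φ (κ a)) (· + ·) (· * ·) (φ y) l := by
  induction l with
  | nil => rfl
  | cons a l ih => rw [hy, hy, map_add, map_mul, ih]

theorem hx_map (l : List (List ℤ)) : φ (hx κ (· + ·) (· * ·) x y l) =
    hx (fun a => φ (κ a)) (· + ·) (· * ·) (φ x) (φ y) l := by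
  induction l with
  | nil => rfl
  | cons a l ih => rw [hx, hx, map_add, map_mul, ih, hy_map]

theorem tri_map (f : A × A × A) (e : X3) :
    tri (fun a => φ (κ a)) (· + ·) (· * ·) (φ sg) (φ x) (φ y) (φ f.1, φ f.2.1, φ f.2.2) e =
      (φ (tri κ (· + ·) (· * ·) sg x y f e).1, φ (tri κ (· + ·) (· * ·) sg x y f e).2.1,
        φ (tri κ (· + ·) (· * ·) sg x y f e).2.2) := by
  induction e with
  | c a => rfl
  | s => rfl
  | t => rfl
  | m => rfl
  | tb T => simp only [tri, hx_map]
  | add a b iha ihb => simp only [tri, iha, ihb, map_add]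
  | sub a b iha ihb => simp only [tri, iha, ihb, map_add, map_mul]
  | mul a b iha ihb => simp only [tri, iha, ihb, m3, map_add, map_mul]

theorem cp_map (F : List (List (List ℤ))) (e : X3) :
    cp (fun a => φ (κ a)) (φ sg) (φ x) (φ y) F e =
      (φ (cp κ sg x y F e).1, φ (cp κ sg x y F e).2.1, φ (cp κ sg x y F e).2.2) := by
  unfold cp
  rw [← hx_map, ← hx_map, ← hx_map]
  exact tri_map φ κ sg x y (hx κ (· + ·) (· * ·) x y (F.getD 0 []),
    hx κ (· + ·) (· * ·) x y (F.getD 1 []), hx κ (· + ·) (· * ·) x y (F.getD 2 [])) e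

end

/-! ### Majorants -/

/-- the polynomials -/
noncomputable def P (F : List (List (List ℤ))) (e : X3) : ℤ[X][X] × ℤ[X][X] × ℤ[X][X] :=
  cp (fun a => C (C a)) (-1) (C X) X F e

/-- the majorants -/
noncomputable def Q (F : List (List (List ℤ))) (e : X3) : ℕ[X][X] × ℕ[X][X] × ℕ[X][X] :=
  cp (fun a => C (C a.natAbs)) 1 (C X) X F e

theorem le_hy (l : List ℤ) : Le (hy (fun a => C (C a)) (· + ·) (· * ·) X l)
    (hy (fun a => C (C a.natAbs)) (· + ·) (· * ·) X l) := by
  induction l with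
  | nil => exact Le.const 0
  | cons a l ih => exact (Le.const a).add (Le.y.mul ih)

theorem le_hx (l : List (List ℤ)) : Le (hx (fun a => C (C a)) (· + ·) (· * ·) (C X) X l)
    (hx (fun a => C (C a.natAbs)) (· + ·) (· * ·) (C X) X l) := by
  induction l with
  | nil => exact Le.const 0
  | cons a l ih => exact (le_hy a).add (Le.x.mul ih)

theorem le_sg {p : ℤ[X][X]} {q : ℕ[X][X]} (h : Le p q) : Le (-1 * p) (1 * q) := by
  intro j i
  have h1 : (-1 : ℤ[X][X]) * p = -p := neg_one_mul p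
  rw [h1, one_mul, coeff_neg, coeff_neg, Int.natAbs_neg]
  exact h j i

theorem le_P (F : List (List (List ℤ))) (e : X3) :
    Le (P F e).1 (Q F e).1 ∧ Le (P F e).2.1 (Q F e).2.1 ∧ Le (P F e).2.2 (Q F e).2.2 := by
  induction e with
  | c a => exact ⟨Le.const a, Le.const 0, Le.const 0⟩
  | s => exact ⟨Le.x, Le.const 0, Le.const 0⟩
  | t => exact ⟨Le.y, Le.const 0, Le.const 0⟩
  | m => exact ⟨Le.const 0, Le.const 1, Le.const 0⟩
  | tb T => exact ⟨le_hx _, le_hx _, le_hx _⟩
  | add a b iha ihb =>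
    exact ⟨iha.1.add ihb.1, iha.2.1.add ihb.2.1, iha.2.2.add ihb.2.2⟩
  | sub a b iha ihb =>
    exact ⟨iha.1.add (le_sg ihb.1), iha.2.1.add (le_sg ihb.2.1), iha.2.2.add (le_sg ihb.2.2)⟩
  | mul a b iha ihb =>
    obtain ⟨a0, a1, a2⟩ := iha
    obtain ⟨b0, b1, b2⟩ := ihb
    have f0 := le_hx (F.getD 0 [])
    have f1 := le_hx (F.getD 1 [])
    have f2 := le_hx (F.getD 2 [])
    have u := a2.mul b2
    have w := ((a1.mul b2).add (a2.mul b1)).add (u.mul f2)
    exact ⟨(a0.mul b0).add (w.mul f0), (((a0.mul b1).add (a1.mul b0)).add (u.mul f0)).add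
      (w.mul f1), ((((a0.mul b2).add (a1.mul b1)).add (a2.mul b0)).add (u.mul f1)).add
      (w.mul f2)⟩

/-! ### The test -/

/-- evaluates the number before the continuation -/
def fI (a : ℤ) (k : ℤ → Bool) : Bool :=
  match a with
  | Int.ofNat n => GSW.fN n fun n => k (Int.ofNat n)
  | Int.negSucc n => GSW.fN n fun n => k (Int.negSucc n)

theorem fI_eq (a : ℤ) (k : ℤ → Bool) : fI a k = k a := by
  cases a <;> simp [fI, GSW.fN_eq]

/-- the number is zero -/
def isz (a : ℤ) : Bool :=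
  match a with
  | Int.ofNat n => Nat.beq n 0
  | Int.negSucc _ => false

theorem isz_eq {a : ℤ} (h : isz a = true) : a = 0 := by
  cases a with
  | ofNat n =>
    have h1 := Nat.eq_of_beq_eq_true h
    rw [h1]
    rfl
  | negSucc n => exact absurd h (by simp [isz])

/-- the components at a point -/
def atI (x y : ℤ) (F : List (List (List ℤ))) (e : X3) (k : ℤ → ℤ → ℤ → Bool) : Bool :=
  rx (fun a => a) Int.add Int.mul x y fI (F.getD 0 []) fun f0 =>
    rx (fun a => a) Int.add Int.mul x y fI (F.getD 1 []) fun f1 =>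
      rx (fun a => a) Int.add Int.mul x y fI (F.getD 2 []) fun f2 =>
        run (fun a => a) Int.add Int.mul (-1) x y fI f0 f1 f2 e k

/-- the values of the majorants at a point -/
def atN (x y : ℕ) (F : List (List (List ℤ))) (e : X3) (k : ℕ → ℕ → ℕ → Bool) : Bool :=
  rx Int.natAbs Nat.add Nat.mul x y GSW.fN (F.getD 0 []) fun f0 =>
    rx Int.natAbs Nat.add Nat.mul x y GSW.fN (F.getD 1 []) fun f1 =>
      rx Int.natAbs Nat.add Nat.mul x y GSW.fN (F.getD 2 []) fun f2 =>
        run Int.natAbs Nat.add Nat.mul 1 x y GSW.fN f0 f1 f2 e k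

theorem atI_eq (x y : ℤ) (F : List (List (List ℤ))) (e : X3) (k : ℤ → ℤ → ℤ → Bool) :
    atI x y F e k = k (cp (fun a : ℤ => a) (-1) x y F e).1 (cp (fun a : ℤ => a) (-1) x y F e).2.1
      (cp (fun a : ℤ => a) (-1) x y F e).2.2 := by
  unfold atI
  rw [rx_eq fI_eq, rx_eq fI_eq, rx_eq fI_eq, run_eq fI_eq]
  rfl

theorem atN_eq (x y : ℕ) (F : List (List (List ℤ))) (e : X3) (k : ℕ → ℕ → ℕ → Bool) :
    atN x y F e k = k (cp Int.natAbs 1 x y F e).1 (cp Int.natAbs 1 x y F e).2.1
      (cp Int.natAbs 1 x y F e).2.2 := by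
  unfold atN
  rw [rx_eq GSW.fN_eq, rx_eq GSW.fN_eq, rx_eq GSW.fN_eq, run_eq GSW.fN_eq]
  rfl

/-- The test. -/
def chk (B D : ℕ) (F : List (List (List ℤ))) (e : X3) : Bool :=
  (atI (Int.ofNat B) (Int.ofNat (Nat.pow B D)) F e fun a b d =>
    isz a && isz b && isz d) &&
  (atN 1 1 F e fun a b d => Nat.blt a B && Nat.blt b B && Nat.blt d B) &&
  (atN B 1 F e fun a b d => Nat.blt a (Nat.pow B D) && Nat.blt b (Nat.pow B D) &&
    Nat.blt d (Nat.pow B D))

theorem chk_zero {B D : ℕ} {F : List (List (List ℤ))} {e : X3} (h : chk B D F e = true) :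
    P F e = (0, 0, 0) := by
  unfold chk at h
  rw [atI_eq, atN_eq, atN_eq] at h
  simp only [Bool.and_eq_true] at h
  obtain ⟨⟨⟨⟨h1, h2⟩, h3⟩, ⟨⟨h4, h5⟩, h6⟩⟩, ⟨⟨h7, h8⟩, h9⟩⟩ := h
  have hle := le_P F e
  have key : ∀ (p : ℤ[X][X]) (q : ℕ[X][X]), Le p q → (eval (1 : ℕ[X]) q).eval 1 < B →
      (eval (1 : ℕ[X]) q).eval B < B ^ D → (eval (C ((B : ℤ) ^ D)) p).eval (B : ℤ) = 0 →
      p = 0 := by
    intro p q hpq hB hD h0
    have hB1 : 1 ≤ B := by omega
    have hD1 : D ≠ 0 ∨ (eval (1 : ℕ[X]) q).eval B < 1 := by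
      rcases Nat.eq_zero_or_pos D with h10 | h10
      · right
        simpa [h10] using hD
      · exact Or.inl h10.ne'
    have hdeg : ∀ j, (p.coeff j).natDegree < D ∨ p.coeff j = 0 := by
      intro j
      by_contra h4
      push Not at h4
      have h5 := natDegree_lt hpq hB1 hD j _ h4.1
      exact h4.2 (leadingCoeff_eq_zero.1 h5)
    rcases hD1 with hD1 | hD1
    · refine GSE.E.biv_zero B D _ _ le_rfl (fun j i => ?_) (fun j => ?_) h0
      · exact ((hpq j i).trans (GSE.E.coeff_coeff_le _ j i)).trans_lt hB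
      · rcases hdeg j with h10 | h10
        · exact h10
        · rw [h10, natDegree_zero]
          omega
    · have h10 : (eval (1 : ℕ[X]) q).eval B = 0 := by omega
      ext j i
      have h11 := (hpq j i).trans (GSE.E.coeff_coeff_le _ j i)
      have h12 : (eval (1 : ℕ[X]) q).eval 1 ≤ (eval (1 : ℕ[X]) q).eval B := by
        set u := eval (1 : ℕ[X]) q
        rw [eval_eq_sum, eval_eq_sum, Polynomial.sum, Polynomial.sum]
        exact Finset.sum_le_sum fun i _ => Nat.mul_le_mul_left _ (Nat.pow_le_pow_left hB1 i)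
      have h13 : ((p.coeff j).coeff i).natAbs = 0 := by omega
      rw [Int.natAbs_eq_zero.1 h13]
      simp
  have hI := cp_map ((evalRingHom (B : ℤ)).comp (evalRingHom (C ((B : ℤ) ^ D))))
    (fun a : ℤ => (C (C a) : ℤ[X][X])) (-1) (C X) X F e
  simp only [RingHom.coe_comp, Function.comp_apply, coe_evalRingHom, eval_C, eval_X, map_neg,
    map_one] at hI
  have hBD : (Int.ofNat (Nat.pow B D) : ℤ) = (B : ℤ) ^ D := by
    change (((B ^ D : ℕ)) : ℤ) = _
    push_cast
    rfl
  rw [hBD] at h1 h2 h3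
  have hQ : ∀ x : ℕ, cp Int.natAbs 1 x 1 F e = (((Q F e).1.eval 1).eval x,
      ((Q F e).2.1.eval 1).eval x, ((Q F e).2.2.eval 1).eval x) := by
    intro x
    have h10 := cp_map ((evalRingHom x).comp (evalRingHom (1 : ℕ[X])))
      (fun a : ℤ => (C (C a.natAbs) : ℕ[X][X])) 1 (C X) X F e
    simp only [RingHom.coe_comp, Function.comp_apply, coe_evalRingHom, eval_C, eval_X,
      map_one, eval_one] at h10
    exact h10
  rw [hQ] at h4 h5 h6 h7 h8 h9
  have z1 := isz_eq h1
  have z2 := isz_eq h2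
  have z3 := isz_eq h3
  have hI1 := congrArg Prod.fst hI
  have hI2 := congrArg (fun p => p.2.1) hI
  have hI3 := congrArg (fun p => p.2.2) hI
  have e1 : (P F e).1 = 0 := key _ _ hle.1 (by simpa [Nat.blt_eq] using h4)
    (by simpa [Nat.blt_eq] using h7) (hI1.symm.trans z1)
  have e2 : (P F e).2.1 = 0 := key _ _ hle.2.1 (by simpa [Nat.blt_eq] using h5)
    (by simpa [Nat.blt_eq] using h8) (hI2.symm.trans z2)
  have e3 : (P F e).2.2 = 0 := key _ _ hle.2.2 (by simpa [Nat.blt_eq] using h6)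
    (by simpa [Nat.blt_eq] using h9) (hI3.symm.trans z3)
  exact Prod.ext e1 (Prod.ext e2 e3)

/-- **The zero test.** -/
theorem zero {B D : ℕ} {F : List (List (List ℤ))} {e : X3} (h : chk B D F e = true)
    {R : Type} [CommRing R] (x y z : R)
    (hz : z ^ 3 = vx x y (F.getD 0 []) + vx x y (F.getD 1 []) * z + vx x y (F.getD 2 []) * z ^ 2) :
    ev x y z e = 0 := by
  have h1 := cp_map (eval₂RingHom (eval₂RingHom (Int.castRingHom R) x) y)
    (fun a : ℤ => (C (C a) : ℤ[X][X])) (-1) (C X) X F e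
  have h2 : cp (fun a : ℤ => (C (C a) : ℤ[X][X])) (-1) (C X) X F e = (0, 0, 0) := chk_zero h
  rw [h2] at h1
  have h3 : (eval₂RingHom (eval₂RingHom (Int.castRingHom R) x) y) (C X) = x := by
    simp
  have h4 : (eval₂RingHom (eval₂RingHom (Int.castRingHom R) x) y) X = y := by
    simp
  have h5 : ∀ a : ℤ, (eval₂RingHom (eval₂RingHom (Int.castRingHom R) x) y) (C (C a)) = a := by
    intro a
    simp
  simp only [h3, h4, h5, map_neg, map_one, map_zero] at h1
  rw [ev_cp x y z F hz, h1]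
  ring

end X3

end Pool.Agent.GSV
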