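import Mathlib
import Pool.Agent.GSK.Quat

/-!
# GSV: isomorphisms of quaternion algebras from generators

`of_gens`: two elements `I`, `J` of `(a₂, b₂)` with `I ^ 2 = a₁`, `J ^ 2 = b₁`, `I J = - J I` (`a₁`, `b₁` not
zero) give an isomorphism of `(a₁, b₁)` with `(a₂, b₂)`.
`of_pure`: the same with the coordinates of two pure quaternions.
`of_norm`: `a₁ = a₂ u ^ 2 + b₂ (v ^ 2 - a₂ w ^ 2)` and `b₁ = - a₂ b₂ (v ^ 2 - a₂ w ^ 2) (x ^ 2 - a₁ y ^ 2)`.
-/

set_option autoImplicit false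

noncomputable section

namespace Pool.Agent.GSV.Quat

open scoped Quaternion

variable {F : Type*} [Field F]

/-- the basis given by the two elements -/
def bas {a₁ b₁ a₂ b₂ : F} (I J : ℍ[F, a₂, b₂]) (hI : I * I = algebraMap F _ a₁)
    (hJ : J * J = algebraMap F _ b₁) (hIJ : I * J = -(J * I)) :
    QuaternionAlgebra.Basis ℍ[F, a₂, b₂] a₁ 0 b₁ where
  i := I
  j := J
  k := I * J
  i_mul_i := by rw [hI, zero_smul, add_zero, Algebra.algebraMap_eq_smul_one]
  j_mul_j := by rw [hJ, Algebra.algebraMap_eq_smul_one]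
  i_mul_j := rfl
  j_mul_i := by rw [zero_smul, zero_sub, hIJ, neg_neg]

/-- the subspace of `I` -/
theorem aux {A : Type*} [Ring A] [Algebra F A] (h2 : (2 : F) ≠ 0) {a b : F} (ha : a ≠ 0)
    (hb : b ≠ 0) {I J : A} (h1 : (1 : A) ≠ 0) (hI : I * I = algebraMap F _ a)
    (hJ : J * J = algebraMap F _ b) (hIJ : I * J = -(J * I)) {x y : F}
    (h : x • (1 : A) + y • I = 0) : x = 0 ∧ y = 0 := by
  have e1 : J * (x • (1 : A) + y • I) * J = (b * x) • (1 : A) - (b * y) • I := by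
    have f1 : J * I * J = -(algebraMap F A b * I) := by
      rw [mul_assoc, hIJ, mul_neg, ← mul_assoc, hJ]
    rw [mul_add, add_mul, mul_smul_comm, mul_smul_comm, smul_mul_assoc, smul_mul_assoc, mul_one,
      hJ, f1, Algebra.algebraMap_eq_smul_one, smul_mul_assoc, one_mul, smul_neg, smul_smul,
      smul_smul, mul_comm x, mul_comm y, sub_eq_add_neg]
  rw [h, mul_zero, zero_mul] at e1
  have e2 : (2 * (b * x)) • (1 : A) = 0 := by
    have f1 : (2 * (b * x)) • (1 : A) = b • (x • (1 : A) + y • I) +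
        ((b * x) • (1 : A) - (b * y) • I) := by
      rw [smul_add, smul_smul, smul_smul, two_mul, add_smul]
      abel
    rw [f1, h, ← e1, smul_zero, add_zero]
  have e3 : 2 * (b * x) = 0 := by
    by_contra h3
    exact (smul_ne_zero h3 h1) e2
  have e4 : x = 0 := by
    rcases mul_eq_zero.1 e3 with h4 | h4
    · exact absurd h4 h2
    · exact (mul_eq_zero.1 h4).resolve_left hb
  refine ⟨e4, ?_⟩
  rw [e4, zero_smul, zero_add] at h
  by_contra hy
  have e5 : I = 0 := by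
    have := (smul_eq_zero.1 h).resolve_left hy
    exact this
  rw [e5, mul_zero] at hI
  rw [Algebra.algebraMap_eq_smul_one] at hI
  exact (smul_ne_zero ha h1) hI.symm

/-- **An isomorphism from generators.** -/
theorem of_gens (h2 : (2 : F) ≠ 0) {a₁ b₁ a₂ b₂ : F} (ha : a₁ ≠ 0) (hb : b₁ ≠ 0)
    (I J : ℍ[F, a₂, b₂]) (hI : I * I = algebraMap F _ a₁) (hJ : J * J = algebraMap F _ b₁)
    (hIJ : I * J = -(J * I)) : Nonempty (ℍ[F, a₁, b₁] ≃ₐ[F] ℍ[F, a₂, b₂]) := by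
  set f : ℍ[F, a₁, b₁] →ₐ[F] ℍ[F, a₂, b₂] := (bas I J hI hJ hIJ).liftHom with hf
  have h1 : (1 : ℍ[F, a₂, b₂]) ≠ 0 := one_ne_zero
  have hinj : Function.Injective f := by
    rw [injective_iff_map_eq_zero]
    intro q hq
    have e0 : f q = (q.re • (1 : ℍ[F, a₂, b₂]) + q.imI • I) +
        (q.imJ • (1 : ℍ[F, a₂, b₂]) + q.imK • I) * J := by
      rw [hf]
      change (bas I J hI hJ hIJ).lift q = _
      unfold QuaternionAlgebra.Basis.lift
      change algebraMap F _ q.re + q.imI • I + q.imJ • J + q.imK • (I * J) = _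
      rw [Algebra.algebraMap_eq_smul_one, add_mul, smul_mul_assoc, smul_mul_assoc, one_mul,
        add_assoc]
    rw [e0] at hq
    -- conjugation with `I`
    have e1 : ∀ x y : F, I * (x • (1 : ℍ[F, a₂, b₂]) + y • I) =
        (x • (1 : ℍ[F, a₂, b₂]) + y • I) * I := by
      intro x y
      rw [mul_add, add_mul, mul_smul_comm, mul_smul_comm, smul_mul_assoc, smul_mul_assoc, mul_one,
        one_mul]
    have e2 := congrArg (fun z => I * z - z * I) hq
    simp only [mul_zero, zero_mul, sub_zero] at e2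
    have e3 : (q.imJ • (1 : ℍ[F, a₂, b₂]) + q.imK • I) * (2 * (I * J)) = 0 := by
      obtain ⟨P, hP⟩ : ∃ P, P = q.re • (1 : ℍ[F, a₂, b₂]) + q.imI • I := ⟨_, rfl⟩
      obtain ⟨R, hR⟩ : ∃ R, R = q.imJ • (1 : ℍ[F, a₂, b₂]) + q.imK • I := ⟨_, rfl⟩
      have g1 : I * P = P * I := by rw [hP, e1]
      have g2 : I * R = R * I := by rw [hR, e1]
      have g3 : J * I = -(I * J) := by rw [hIJ, neg_neg]
      rw [← e2, ← hP, ← hR, mul_add, add_mul, g1, ← mul_assoc I R, g2, mul_assoc R J I, g3,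
        two_mul, mul_neg, mul_add, mul_assoc R I J]
      abel
    have e4 : q.imJ • (1 : ℍ[F, a₂, b₂]) + q.imK • I = 0 := by
      have f1 := congrArg (fun z => z * (J * I)) e3
      simp only [zero_mul] at f1
      have f2 : (2 * (I * J)) * (J * I) = algebraMap F ℍ[F, a₂, b₂] (2 * (b₁ * a₁)) := by
        rw [mul_assoc, mul_assoc I, ← mul_assoc J, hJ, Algebra.left_comm I b₁, hI, map_mul,
          map_mul, map_ofNat]
      rw [mul_assoc, f2, ← Algebra.commutes, ← Algebra.smul_def] at f1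
      exact (smul_eq_zero.1 f1).resolve_left (mul_ne_zero h2 (mul_ne_zero hb ha))
    rw [e4, zero_mul, add_zero] at hq
    obtain ⟨g1, g2⟩ := aux h2 ha hb h1 hI hJ hIJ hq
    obtain ⟨g3, g4⟩ := aux h2 ha hb h1 hI hJ hIJ e4
    ext
    · exact g1
    · exact g2
    · exact g3
    · exact g4
  have hbij : Function.Bijective f := by
    have h3 : Function.Injective f.toLinearMap := hinj
    have h4 : Function.Surjective f.toLinearMap :=
      (LinearMap.injective_iff_surjective_of_finrank_eq_finrank (by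
        rw [QuaternionAlgebra.finrank_eq_four, QuaternionAlgebra.finrank_eq_four])).1 h3
    exact ⟨hinj, h4⟩
  exact ⟨AlgEquiv.ofBijective f hbij⟩

/-- **Two pure quaternions.** -/
theorem of_pure (h2 : (2 : F) ≠ 0) {a₁ b₁ a₂ b₂ : F} (ha : a₁ ≠ 0) (hb : b₁ ≠ 0)
    (u v w u' v' w' : F) (hI : a₂ * u ^ 2 + b₂ * v ^ 2 - a₂ * b₂ * w ^ 2 = a₁)
    (hJ : a₂ * u' ^ 2 + b₂ * v' ^ 2 - a₂ * b₂ * w' ^ 2 = b₁)
    (hIJ : a₂ * u * u' + b₂ * v * v' - a₂ * b₂ * w * w' = 0) :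
    Nonempty (ℍ[F, a₁, b₁] ≃ₐ[F] ℍ[F, a₂, b₂]) := by
  refine of_gens h2 ha hb ⟨0, u, v, w⟩ ⟨0, u', v', w'⟩ ?_ ?_ ?_
  · ext <;> simp
    · linear_combination hI
    · ring
    · ring
    · ring
  · ext <;> simp
    · linear_combination hJ
    · ring
    · ring
    · ring
  · ext <;> simp
    · linear_combination 2 * hIJ
    · ring
    · ring
    · ring

/-- **One pure quaternion and a norm.** -/
theorem of_norm (h2 : (2 : F) ≠ 0) {a₁ b₁ a₂ b₂ : F} (ha : a₁ ≠ 0) (hb : b₁ ≠ 0)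
    (u v w x y : F) (hI : a₂ * u ^ 2 + b₂ * (v ^ 2 - a₂ * w ^ 2) = a₁)
    (hJ : -(a₂ * b₂ * (v ^ 2 - a₂ * w ^ 2)) * (x ^ 2 - a₁ * y ^ 2) = b₁) :
    Nonempty (ℍ[F, a₁, b₁] ≃ₐ[F] ℍ[F, a₂, b₂]) := by
  have h3 : -(a₂ * b₂ * (v ^ 2 - a₂ * w ^ 2)) ≠ 0 := by
    intro h
    apply hb
    rw [← hJ, h, zero_mul]
  obtain ⟨f⟩ := of_pure (a₂ := a₂) (b₂ := b₂) h2 ha h3 u v w 0 (a₂ * w) v
    (by linear_combination hI) (by ring) (by ring)
  obtain ⟨g⟩ := GSK.Quat.norm (a := a₁) (b := -(a₂ * b₂ * (v ^ 2 - a₂ * w ^ 2))) hb hJ.symm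
  exact ⟨g.trans f⟩

end Pool.Agent.GSV.Quat
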