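import Pool.Agent.GSV.Frac
import Pool.Agent.GSV.Quat
import Pool.Agent.GSF.Final

/-!
# GSV: the tests for the hypotheses of the theorem

`M` an extension of `K = ℂ(s, t)`, `z` an element of `M` with a monic cubic equation `F` over
`ℤ[s, t]`, `Fr.ev`: the values of fractions at `(s, t, z)`. `surf_of`: the surface of a cubic with
integer coefficients. `degen_of`, `sq_of`, `cls_of`: the surface and the quaternion algebra of a datum
with integer coefficients.
-/

set_option autoImplicit false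

noncomputable section

namespace Pool.Agent.GSV

open X3 Matrix
open scoped Quaternion

/-- the datum over `ℂ` -/
abbrev DC (D : TK.Dat ℤ) : TK.Dat ℂ := D.map fun a : ℤ => (a : ℂ)

/-- the cubic over `ℂ` -/
abbrev XC (X : TK.Cub ℤ) : TK.Cub ℂ := X.map fun a : ℤ => (a : ℂ)

section

variable (M : Type) [Field M] [Algebra TK.K M] (z : M) {d : X3}

/-- the value at `(s, t, z)` -/
def val (a : Fr d) : M :=
  a.ev (algebraMap TK.K M (TK.var 0)) (algebraMap TK.K M (TK.var 1)) z

/-- the value in `K` -/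
def valK (a : Fr d) : TK.K := a.ev (TK.var 0) (TK.var 1) 0

variable {M} {z}

theorem algebraMap_valK {a : Fr d} (h : nom a.n = true) (hd : nom d = true) :
    algebraMap TK.K M (valK a) = val M z a := by
  rw [valK, val, Fr.ev, Fr.ev, map_div₀, map_pow, X3.ev_map, X3.ev_map, map_zero,
    ev_nom h _ _ z 0, ev_nom hd _ _ z 0]

theorem dat_map (D : TK.Dat ℤ) (hd : X3.ev (algebraMap TK.K M (TK.var 0))
    (algebraMap TK.K M (TK.var 1)) z d ≠ 0) :
    (DC D).map (TK.cc M) = (D.map (Fr.ic d)).map (val M z) := by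
  have h : ∀ a : ℤ, TK.cc M (a : ℂ) = val M z (Fr.ic d a) := by
    intro a
    have h1 := (Fr.hm hd).c a
    rw [val]
    refine Eq.trans ?_ h1.symm
    rw [TK.cc, map_intCast, map_intCast]
  change D.map (fun a : ℤ => TK.cc M (a : ℂ)) = D.map fun a => val M z (Fr.ic d a)
  rw [funext h]

theorem cub_map (X : TK.Cub ℤ) (hd : X3.ev (algebraMap TK.K M (TK.var 0))
    (algebraMap TK.K M (TK.var 1)) z d ≠ 0) :
    (XC X).map (TK.cc M) = (X.map (Fr.ic d)).map (val M z) := by
  have h : ∀ a : ℤ, TK.cc M (a : ℂ) = val M z (Fr.ic d a) := by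
    intro a
    have h1 := (Fr.hm hd).c a
    rw [val]
    refine Eq.trans ?_ h1.symm
    rw [TK.cc, map_intCast, map_intCast]
  change X.map (fun a : ℤ => TK.cc M (a : ℂ)) = X.map fun a => val M z (Fr.ic d a)
  rw [funext h]

variable {F : List (List (List ℤ))}
  (hz : Fr.Root F (algebraMap TK.K M (TK.var 0)) (algebraMap TK.K M (TK.var 1)) z)
  (hd : X3.ev (algebraMap TK.K M (TK.var 0)) (algebraMap TK.K M (TK.var 1)) z d ≠ 0)

include hz hd

/-- the test for equality -/
theorem eq_of {a b : Fr d} {B N : ℕ} (h : chk B N F (a - b).n = true) : val M z a = val M z b := by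
  have h1 := Fr.zero_of h hz
  rw [(Fr.hm hd).sub] at h1
  exact sub_eq_zero.1 h1

theorem degen_of {D : TK.Dat ℤ} {c : Fin 2 → Fr d} {m : Fr d} {v : Fin 6 → Fr d}
    (hv : ∃ k, val M z (v k) ≠ 0) {B N : ℕ}
    (h : ∀ k, chk B N F (G.deg (Fr.ic d) (D.map (Fr.ic d)) c m v k).n = true) :
    ((DC D).map (TK.cc M)).Degen (fun i => val M z (c i)) (val M z m) := by
  refine ⟨fun k => val M z (v k), ?_, ?_⟩
  · intro h0
    obtain ⟨k, hk⟩ := hv
    exact hk (congrFun h0 k)
  · refine fun u => G.deg_of _ _ _ (fun k => ?_) u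
    rw [dat_map D hd]
    have h1 := (Fr.hm hd).deg (D.map (Fr.ic d)) c m v k
    exact h1.symm.trans (Fr.zero_of (h k) hz)

theorem sq_of {D : TK.Dat ℤ} {c : Fin 2 → Fr d} {T : Fr d} {B N : ℕ}
    (h : chk B N F (G.sq (Fr.ic d) (D.map (Fr.ic d)) c - T).n = true) :
    ((DC D).map (TK.cc M)).sq (fun i => val M z (c i)) = val M z T := by
  rw [G.sq_eq, dat_map D hd]
  exact ((Fr.hm hd).sq (D.map (Fr.ic d)) c).symm.trans (eq_of hz hd h)

theorem cls_of {D : TK.Dat ℤ} {c : Fin 2 → Fr d} {m : Fr d} {T : Fr d} {B N : ℕ}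
    (h : chk B N F (G.cls (Fr.ic d) (D.map (Fr.ic d)) c m - T).n = true) :
    ((DC D).map (TK.cc M)).cls (fun i => val M z (c i)) (val M z m) = val M z T := by
  rw [G.cls_eq, dat_map D hd]
  exact ((Fr.hm hd).cls (D.map (Fr.ic d)) c m).symm.trans (eq_of hz hd h)

theorem surf_of {X : TK.Cub ℤ} {n n' : Fin 3 → Fr d} {B N : ℕ}
    (h0 : chk B N F (G.gg (Fr.ic d) (X.map (Fr.ic d)) n n' 0).n = true)
    (h1 : chk B N F (G.d2 n - G.d2 n').n = true)
    (h2 : chk B N F (G.cu (Fr.ic d) (X.map (Fr.ic d)) n n').n = true) :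
    ((XC X).map (TK.cc M)).Surf (fun i => val M z (n i)) (fun i => val M z (n' i)) := by
  rw [cub_map X hd]
  refine G.surf_of (e := 1) (fun a ha => by rwa [one_mul] at ha) (fun i => (one_mul _).symm)
    (fun i => (one_mul _).symm) ?_ ?_ ?_
  · exact ((Fr.hm hd).gg (X.map (Fr.ic d)) n n' 0).symm.trans (Fr.zero_of h0 hz)
  · exact ((Fr.hm hd).d2 n).symm.trans ((eq_of hz hd h1).trans ((Fr.hm hd).d2 n'))
  · exact ((Fr.hm hd).cu (X.map (Fr.ic d)) n n').symm.trans (Fr.zero_of h2 hz)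

end

/-- An isomorphism of quaternion algebras from the identities without denominators. -/
theorem quat_of {F : Type} [Field F] [CharZero F] {a1 b1 a2 b2 u V W u1 V1 W1 : F} (ha : a1 ≠ 0)
    (hb : b1 ≠ 0) (hb2 : b2 ≠ 0) (h1 : V ^ 2 - a2 * W ^ 2 = b2 * (a1 - a2 * u ^ 2))
    (h2 : V1 ^ 2 - a2 * W1 ^ 2 = b2 * (b1 - a2 * u1 ^ 2))
    (h3 : V * V1 - a2 * (W * W1) = -(b2 * (a2 * (u * u1)))) :
    Nonempty (ℍ[F, a1, b1] ≃ₐ[F] ℍ[F, a2, b2]) := by
  refine Quat.of_pure two_ne_zero ha hb (u := u) (v := V / b2) (w := W / b2) (u' := u1)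
    (v' := V1 / b2) (w' := W1 / b2) ?_ ?_ ?_
  · field_simp
    linear_combination h1
  · field_simp
    linear_combination h2
  · field_simp
    linear_combination h3

end Pool.Agent.GSV
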