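import Pool.Agent.GSV.Q4
import Pool.Agent.GSV.XD
import Pool.Agent.GSE.Fld
import Pool.Agent.GSK4.Smooth

/-!
# GSV: the example, the points of the two K3 surfaces

`M` an extension of `K = ℂ(s, t)` of degree 3, `z` an element of `M` outside `K` which is a root of
the cubic polynomial `F`. `cub_gen`, `dat_gen`: `Cub.Gen` and `Dat.Gen`. `top`: the parameters
generate `K`. `smooth`, `irr`, `nondeg`: the cubic fourfold.
-/

set_option autoImplicit false
set_option maxRecDepth 100000

noncomputable section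

namespace Pool.Agent.GSV

open X3

/-- a polynomial is not zero if its value at one point is not zero -/
theorem vxK_ne {T : List (List ℤ)} (a b : ℤ) (h : vx a b T ≠ 0) :
    vx (TK.var 0) (TK.var 1) T ≠ 0 := by
  have h1 : algebraMap (MvPolynomial (Fin 2) ℂ) TK.K (vx (MvPolynomial.X 0) (MvPolynomial.X 1) T) =
      vx (TK.var 0) (TK.var 1) T := vx_map _ _ _ T
  rw [← h1, Ne, map_eq_zero_iff _ (IsFractionRing.injective (MvPolynomial (Fin 2) ℂ) TK.K)]
  intro h2
  have h3 := vx_map (MvPolynomial.eval ![(a : ℂ), (b : ℂ)]) (MvPolynomial.X 0) (MvPolynomial.X 1) T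
  rw [h2] at h3
  simp only [map_zero, MvPolynomial.eval_X, Matrix.cons_val_zero, Matrix.cons_val_one] at h3
  have h4 := vx_map (Int.castRingHom ℂ) a b T
  simp only [eq_intCast] at h4
  rw [← h3] at h4
  exact h (by exact_mod_cast h4)

section

variable {M : Type} [Field M] [Algebra TK.K M] {z : M}

/-- a value is not in `K` -/
theorem val_not_mem (hM : Module.finrank TK.K M = 3)
    (hzK : z ∉ Set.range (algebraMap TK.K M)) {d : X3} (hnd : nom d = true)
    (hdM : X3.ev (algebraMap TK.K M (TK.var 0)) (algebraMap TK.K M (TK.var 1)) z d ≠ 0)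
    {T : List (List (List ℤ))} {k : ℕ} (a b : ℤ) (h : vx a b (T.getD 1 []) ≠ 0) :
    val M z (⟨tb T, k⟩ : Fr d) ∉ Set.range (algebraMap TK.K M) := by
  have h1 := vxK_ne a b h
  refine not_mem_of hM hzK (d := X3.ev (TK.var 0) (TK.var 1) 0 d ^ k)
    (a := vx (TK.var 0) (TK.var 1) (T.getD 0 [])) (b := vx (TK.var 0) (TK.var 1) (T.getD 1 []))
    (c := vx (TK.var 0) (TK.var 1) (T.getD 2 [])) (Or.inl h1) ?_
  rw [vx_map, vx_map, vx_map, map_pow, ev_map, map_zero, ev_nom hnd _ _ 0 z, val, Fr.ev,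
    mul_div_cancel₀ _ (pow_ne_zero k hdM)]
  rfl

end

namespace Q4

theorem t_p0 : chk (2 ^ 50) 20 F (n 0 + n' 0 - ⟨X3.t, 0⟩).n = true := by decide +kernel

theorem t_p1 : chk (2 ^ 50) 20 F (n 1 + n' 1 - ⟨X3.sub (X3.c 0) X3.s, 0⟩).n = true := by
  decide +kernel

theorem t_p2 : chk (2 ^ 50) 20 F (n 2 + n' 2 - ⟨X3.c 1, 0⟩).n = true := by decide +kernel

/-! ### The parameters -/

theorem dK_ne : X3.ev (TK.var 0) (TK.var 1) 0 d ≠ 0 := by
  have h := vxK_ne (T := [[84, 212, 80, 10], [88, -316, -100, -10], [-448, 116, 20], [376, -12],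
    [-100]]) 0 0 (by decide)
  simpa [d, X3.ev, vx, hx] using h

theorem top : IntermediateField.adjoin ℂ (Set.range fun i => valK (c i)) = ⊤ := by
  set T := IntermediateField.adjoin ℂ (Set.range fun i => valK (c i)) with hT
  have h0 : valK (c 0) ∈ T := IntermediateField.subset_adjoin _ _ ⟨0, rfl⟩
  have h1 : valK (c 1) ∈ T := IntermediateField.subset_adjoin _ _ ⟨1, rfl⟩
  have hd := dK_ne
  have e0 : (1 - TK.var 0) * valK (c 0) = 4 := by
    rw [valK, Fr.ev, mul_div_assoc', div_eq_iff (pow_ne_zero _ hd)]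
    simp [c, c0, d, X3.ev, vx, hx, hy]
    ring
  have e1 : (1 - TK.var 0) * valK (c 1) = 3 + TK.var 0 + 2 * TK.var 1 := by
    rw [valK, Fr.ev, mul_div_assoc', div_eq_iff (pow_ne_zero _ hd)]
    simp [c, c1, d, X3.ev, vx, hx, hy]
    ring
  have hc : valK (c 0) ≠ 0 := by
    intro h
    rw [h, mul_zero] at e0
    norm_num at e0
  have hs : TK.var 0 ∈ T := by
    have h2 : TK.var 0 = 1 - 4 / valK (c 0) := by
      field_simp
      linear_combination -e0
    rw [h2]
    exact T.sub_mem T.one_mem (T.div_mem (T.natCast_mem 4) h0)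
  have ht : TK.var 1 ∈ T := by
    have h2 : TK.var 1 = ((1 - TK.var 0) * valK (c 1) - 3 - TK.var 0) / 2 := by
      rw [e1]
      ring
    rw [h2]
    exact T.div_mem (T.sub_mem (T.sub_mem (T.mul_mem (T.sub_mem T.one_mem hs) h1)
      (T.natCast_mem 3)) hs) (T.natCast_mem 2)
  exact GSE.top_of_st hs ht

/-! ### The points -/

section

variable (M : Type) [Field M] [Algebra TK.K M] (z : M)

theorem dM_ne : X3.ev (algebraMap TK.K M (TK.var 0)) (algebraMap TK.K M (TK.var 1)) z d ≠ 0 := by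
  have h : nom d = true := by decide
  have h1 := ev_map (algebraMap TK.K M) (TK.var 0) (TK.var 1) 0 d
  rw [map_zero] at h1
  rw [ev_nom h _ _ z 0, ← h1, Ne, map_eq_zero]
  exact dK_ne

variable {M z} (hM : Module.finrank TK.K M = 3) (hzK : z ∉ Set.range (algebraMap TK.K M))
  (hz : Fr.Root F (algebraMap TK.K M (TK.var 0)) (algebraMap TK.K M (TK.var 1)) z)

include hM hzK hz

theorem cub_gen : (XC X).Gen (fun i => val M z (n i)) fun i => val M z (n' i) := by
  have hd := dM_ne M z
  refine cubGen hM (surf_of hz hd t0 t1 t2) ?_ ?_ ?_ 2 ?_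
  · have h := eq_of hz hd t_p0
    have h1 : val M z (n 0 + n' 0) = val M z (n 0) + val M z (n' 0) := (Fr.hm hd).add _ _
    rw [← h1, h]
    simp [val, Fr.ev, X3.ev]
  · have h := eq_of hz hd t_p1
    have h1 : val M z (n 1 + n' 1) = val M z (n 1) + val M z (n' 1) := (Fr.hm hd).add _ _
    rw [← h1, h]
    simp [val, Fr.ev, X3.ev]
  · have h := eq_of hz hd t_p2
    have h1 : val M z (n 2 + n' 2) = val M z (n 2) + val M z (n' 2) := (Fr.hm hd).add _ _
    rw [← h1, h]
    simp [val, Fr.ev, X3.ev]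
  · exact val_not_mem hM hzK (by decide) hd 0 0 (by decide)

theorem dat_gen : (DC D).Gen (fun i => valK (c i)) (val M z m) := by
  have hd := dM_ne M z
  refine datGen hM ?_ (val_not_mem hM hzK (by decide) hd 0 0 (by decide))
  have h1 : (fun i => algebraMap TK.K M (valK (c i))) = fun i => val M z (c i) := by
    funext i
    exact algebraMap_valK (by fin_cases i <;> decide) (by decide)
  rw [h1]
  refine GSV.degen_of hz hd (v := v) ⟨0, ?_⟩ t4
  have h2 : val M z (v 0) = X3.ev (algebraMap TK.K M (TK.var 0))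
      (algebraMap TK.K M (TK.var 1)) z (v 0).n := by
    have h3 : (v 0).k = 0 := rfl
    rw [val, Fr.ev, h3, pow_zero, div_one]
  rw [h2]
  exact ne_of hz (fun _ _ _ h => lin_of hM hzK h) (a := 0) (b := 0) (by decide +kernel)

end

/-! ### The cubic fourfold -/

theorem X_to : (XC X).to = GSK4.X.map (Int.castRingHom ℂ) := rfl

theorem smooth : P28.PSmooth (XC X).F := by
  rw [← TK.Cub.to_F, X_to]
  exact GSK4.smooth

theorem irr : Irreducible (XC X).F := by
  rw [← TK.Cub.to_F, X_to]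
  exact GSK4.irr

theorem nondeg : (XC X).NonDeg :=
  ⟨GSK4.nondeg.det, GSK4.nondeg.a0, GSK4.nondeg.b0⟩

end Q4

end Pool.Agent.GSV
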